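import Mathlib
import Pool.Agent.H438R2.ZD.Defs
import Pool.Agent.H438R2.BR.Meas
import Pool.Agent.H438R2.BR.T1
import Pool.Agent.H438R2.BR.T2
import Pool.Agent.H438R2.BR.T7
import Pool.Agent.Helper390.CovarioA
set_option autoImplicit false

/-! Z1: decay of the Bessel integral, and the `L²` bound in the axis variable (helper152). -/

namespace Pool.Agent.H438R2.ZD

open MeasureTheory Set Complex
open scoped ENNReal RealInnerProductSpace FourierTransform
open Pool.Agent.H789R2.FR (E sg)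
open Pool.Agent.H438R2.BR (Phi Q K ka J sy L w)

namespace Z1

/-- `e^{-x} ≤ (k-1)! min(1,1/x)^{k-1}` -/
theorem exp_le_w (k : ℕ) {u y : ℝ} (hu : 0 < u) (hy : 0 < y) :
    Real.exp (-(u * y)) ≤ ((k - 1).factorial : ℝ) * w k u y := by
  have hx : 0 < u * y := by positivity
  have hf : (1 : ℝ) ≤ ((k - 1).factorial : ℝ) := by exact_mod_cast Nat.factorial_pos (k - 1)
  unfold w
  rcases le_total (u * y) 1 with h | h
  · have h1 : 1 ≤ 1 / (u * y) := by rwa [le_div_iff₀ hx, one_mul]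
    rw [min_eq_left h1, one_pow, mul_one]
    refine le_trans ?_ hf
    rw [Real.exp_le_one_iff]
    linarith
  · have h1 : 1 / (u * y) ≤ 1 := by rwa [div_le_one hx]
    rw [min_eq_right h1, one_div, inv_pow]
    have h2 := Real.pow_div_factorial_le_exp (x := u * y) hx.le (k - 1)
    rw [Real.exp_neg, ← one_div, ← div_eq_mul_inv, div_le_div_iff₀ (Real.exp_pos _) (by positivity)]
    rw [div_le_iff₀ (by positivity)] at h2
    linarith

theorem L_le (k : ℕ) (hk : 2 ≤ k) : ∃ C : ℝ, 0 < C ∧ ∀ u : ℝ, 1 ≤ u →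
    ‖L k u‖ ≤ C * u ^ (-(((k : ℝ) - 1) / 2)) := by
  obtain ⟨C, hC, h⟩ := Pool.Agent.H438R2.BR.sy_int k hk
  refine ⟨((k - 1).factorial : ℝ) * C, by positivity, fun u hu => ?_⟩
  have hu0 : 0 < u := by linarith
  have h1 : ENNReal.ofReal ‖L k u‖ ≤ ENNReal.ofReal (((k - 1).factorial : ℝ) * C *
      u ^ (-(((k : ℝ) - 1) / 2))) := by
    unfold L
    rw [ofReal_norm_eq_enorm]
    refine (enorm_integral_le_lintegral_enorm _).trans ?_
    calc ∫⁻ y in Ioi (0 : ℝ), ‖((Real.exp (-(u * y)) : ℝ) : ℂ) * sy k y‖ₑ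
        ≤ ∫⁻ y in Ioi (0 : ℝ), ENNReal.ofReal ((k - 1).factorial : ℝ) *
            ENNReal.ofReal (‖sy k y‖ * w k u y) := by
          refine setLIntegral_mono' measurableSet_Ioi fun y hy => ?_
          have hy' : (0 : ℝ) < y := hy
          rw [← ofReal_norm_eq_enorm, norm_mul, Complex.norm_real, Real.norm_of_nonneg
            (Real.exp_pos _).le, ← ENNReal.ofReal_mul (by positivity)]
          apply ENNReal.ofReal_le_ofReal
          have := mul_le_mul_of_nonneg_right (exp_le_w k hu0 hy') (norm_nonneg (sy k y))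
          linarith
      _ = ENNReal.ofReal ((k - 1).factorial : ℝ) *
            ∫⁻ y in Ioi (0 : ℝ), ENNReal.ofReal (‖sy k y‖ * w k u y) :=
          lintegral_const_mul' _ _ ENNReal.ofReal_ne_top
      _ ≤ ENNReal.ofReal ((k - 1).factorial : ℝ) *
            ENNReal.ofReal (C * u ^ (-(((k : ℝ) - 1) / 2))) := by
          gcongr
          exact h u hu
      _ = _ := by
          rw [← ENNReal.ofReal_mul (by positivity)]
          congr 1
          ring
  exact (ENNReal.ofReal_le_ofReal_iff (by positivity)).1 h1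

end Z1

/-! ## Z0: decay of the Bessel integral -/
theorem Phi_decay (k : ℕ) (hk : 2 ≤ k) : ∃ C : ℝ, 0 < C ∧ ∀ u : ℝ, 0 < u →
    ‖Phi k u‖ ≤ C * min 1 (u ^ (-(((k : ℝ) - 1) / 2))) := by
  obtain ⟨C, hC, h⟩ := Z1.L_le k hk
  have hk' : (2 : ℝ) ≤ k := by exact_mod_cast hk
  refine ⟨Real.pi + 2 * C, by positivity, fun u hu => ?_⟩
  rcases le_total u 1 with h1 | h1
  · have h2 : 1 ≤ u ^ (-(((k : ℝ) - 1) / 2)) :=
      Real.one_le_rpow_of_pos_of_le_one_of_nonpos hu h1 (by linarith)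
    rw [min_eq_left h2, mul_one]
    have := Pool.Agent.H438R2.BR.Phi_le k hk u
    linarith
  · have h2 : u ^ (-(((k : ℝ) - 1) / 2)) ≤ 1 :=
      Real.rpow_le_one_of_one_le_of_nonpos h1 (by linarith)
    rw [min_eq_right h2, Pool.Agent.H438R2.BR.phi_laplace k hk u hu]
    have e1 : ‖Complex.exp ((u : ℂ) * I)‖ = 1 := Complex.norm_exp_ofReal_mul_I u
    have e2 : ‖Complex.exp (-((u : ℂ) * I))‖ = 1 := by
      have := Complex.norm_exp_ofReal_mul_I (-u)
      rw [Complex.ofReal_neg, neg_mul] at this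
      exact this
    have h3 := h u h1
    have hpi := Real.pi_pos
    have h4 : 0 ≤ u ^ (-(((k : ℝ) - 1) / 2)) := by positivity
    calc ‖-I * Complex.exp ((u : ℂ) * I) * L k u +
          I * Complex.exp (-((u : ℂ) * I)) * (starRingEnd ℂ) (L k u)‖
        ≤ ‖-I * Complex.exp ((u : ℂ) * I) * L k u‖ +
          ‖I * Complex.exp (-((u : ℂ) * I)) * (starRingEnd ℂ) (L k u)‖ := norm_add_le _ _
      _ = 2 * ‖L k u‖ := by
          rw [norm_mul, norm_mul, norm_mul, norm_mul, e1, e2, norm_neg, Complex.norm_I,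
            RCLike.norm_conj]
          ring
      _ ≤ (Real.pi + 2 * C) * u ^ (-(((k : ℝ) - 1) / 2)) := by nlinarith

namespace Z1

/-- the profile in the variable `s = sin θ` -/
noncomputable def g (k : ℕ) (G : ℝ → ℂ) (r : ℝ) : ℝ → ℂ :=
  (Ioo (0 : ℝ) 1).indicator fun s => G (Real.arcsin s) *
    (((Real.cos (Real.arcsin s)) ^ (k - 2) : ℝ) : ℂ) * Phi k (r * Real.cos (Real.arcsin s))

theorem g_meas (k : ℕ) (G : ℝ → ℂ) (hG : Measurable G) (r : ℝ) : Measurable (g k G r) := by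
  unfold g
  refine Measurable.indicator ?_ measurableSet_Ioo
  have hc : Measurable fun s : ℝ => Real.cos (Real.arcsin s) :=
    Real.measurable_cos.comp Real.continuous_arcsin.measurable
  refine ((hG.comp Real.continuous_arcsin.measurable).mul
    (Complex.measurable_ofReal.comp (hc.pow_const _))).mul ?_
  exact (Pool.Agent.H438R2.BR.Phi_meas k).comp (measurable_const.mul hc)

theorem g_le (k : ℕ) (hk : 2 ≤ k) (G : ℝ → ℂ) (M : ℝ) (hM : ∀ θ, ‖G θ‖ ≤ M) (r s : ℝ) :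
    ‖g k G r s‖ ≤ M * Real.pi := by
  have hM0 : 0 ≤ M := (norm_nonneg _).trans (hM 0)
  unfold g
  by_cases hs : s ∈ Ioo (0 : ℝ) 1
  · rw [indicator_of_mem hs, norm_mul, norm_mul, Complex.norm_real]
    have h1 : ‖Real.cos (Real.arcsin s) ^ (k - 2)‖ ≤ 1 := by
      rw [norm_pow]
      exact pow_le_one₀ (norm_nonneg _) (Real.abs_cos_le_one _)
    have h2 := Pool.Agent.H438R2.BR.Phi_le k hk (r * Real.cos (Real.arcsin s))
    calc ‖G (Real.arcsin s)‖ * ‖Real.cos (Real.arcsin s) ^ (k - 2)‖ *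
          ‖Phi k (r * Real.cos (Real.arcsin s))‖ ≤ M * 1 * Real.pi := by
          apply mul_le_mul _ h2 (norm_nonneg _) (by positivity)
          exact mul_le_mul (hM _) h1 (norm_nonneg _) hM0
      _ = M * Real.pi := by ring
  · rw [indicator_of_notMem hs, norm_zero]
    have := Real.pi_pos
    positivity

theorem g_memLp (k : ℕ) (hk : 2 ≤ k) (G : ℝ → ℂ) (hG : Measurable G) (M : ℝ)
    (hM : ∀ θ, ‖G θ‖ ≤ M) (r : ℝ) (p : ℝ≥0∞) : MemLp (g k G r) p := by
  have h1 : g k G r = (Ioo (0 : ℝ) 1).indicator (g k G r) := by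
    unfold g
    rw [indicator_indicator, inter_self]
  rw [h1, memLp_indicator_iff_restrict measurableSet_Ioo]
  have : IsFiniteMeasure ((volume : Measure ℝ).restrict (Ioo (0 : ℝ) 1)) :=
    ⟨by rw [Measure.restrict_apply_univ, Real.volume_Ioo]; exact ENNReal.ofReal_lt_top⟩
  exact MemLp.of_bound (g_meas k G hG r).aestronglyMeasurable (M * Real.pi)
    (Filter.Eventually.of_forall fun x => g_le k hk G M hM r x)

theorem ft (k : ℕ) (hk : 2 ≤ k) (G : ℝ → ℂ) (r ξ : ℝ) :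
    𝓕 (g k G r) ξ = Fz k G r (2 * Real.pi * ξ) := by
  rw [Real.fourier_real_eq_integral_exp_smul]
  have h1 : ∀ s : ℝ, Complex.exp (((-2 * Real.pi * s * ξ : ℝ) : ℂ) * I) • g k G r s =
      (Ioo (0 : ℝ) 1).indicator (fun s => Complex.exp (((-2 * Real.pi * s * ξ : ℝ) : ℂ) * I) *
        g k G r s) s := by
    intro s
    by_cases hs : s ∈ Ioo (0 : ℝ) 1
    · rw [indicator_of_mem hs, smul_eq_mul]
    · rw [indicator_of_notMem hs]
      have : g k G r s = 0 := by unfold g; rw [indicator_of_notMem hs]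
      rw [this, smul_zero]
  rw [integral_congr_ae (Filter.Eventually.of_forall h1), integral_indicator measurableSet_Ioo,
    ← Pool.Agent.H438R2.BR.T7.sin_image,
    integral_image_eq_integral_abs_deriv_smul (f' := Real.cos) Pool.Agent.H438R2.BR.T7.mQ
    (fun x _ => (Real.hasDerivAt_sin x).hasDerivWithinAt) Pool.Agent.H438R2.BR.T7.sin_injOn]
  unfold Fz
  refine setIntegral_congr_fun Pool.Agent.H438R2.BR.T7.mQ fun θ hθ => ?_
  have hc := Pool.Agent.H438R2.BR.T7.cos_pos_Q hθ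
  have hmem : Real.sin θ ∈ Ioo (0 : ℝ) 1 := by
    rw [← Pool.Agent.H438R2.BR.T7.sin_image]; exact ⟨θ, hθ, rfl⟩
  have hg : g k G r (Real.sin θ) = G θ * (((Real.cos θ) ^ (k - 2) : ℝ) : ℂ) *
      Phi k (r * Real.cos θ) := by
    unfold g
    rw [indicator_of_mem hmem, Pool.Agent.H438R2.BR.T7.arcsin_sin_Q hθ]
  rw [hg, abs_of_pos hc, Complex.real_smul]
  have e1 : ((Real.cos θ ^ (k - 1) : ℝ) : ℂ) = ((Real.cos θ : ℝ) : ℂ) *
      ((Real.cos θ ^ (k - 2) : ℝ) : ℂ) := by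
    rw [← Complex.ofReal_mul, ← pow_succ']
    congr 3
    omega
  have e2 : Complex.exp (((-2 * Real.pi * Real.sin θ * ξ : ℝ) : ℂ) * I) =
      Complex.exp (-((2 * Real.pi * ξ * Real.sin θ : ℝ) : ℂ) * I) := by
    congr 2
    rw [← Complex.ofReal_neg]
    congr 1
    ring
  rw [e1, e2]
  ring

theorem scaling (f : ℝ → ℝ≥0∞) : ∫⁻ t, f t =
    ENNReal.ofReal (2 * Real.pi) * ∫⁻ ξ, f (2 * Real.pi * ξ) := by
  have ha : (2 * Real.pi : ℝ) ≠ 0 := Real.two_pi_pos.ne'
  conv_lhs => rw [← Real.smul_map_volume_mul_left ha]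
  rw [lintegral_smul_measure, abs_of_pos Real.two_pi_pos, smul_eq_mul]
  congr 1
  exact (Homeomorph.mulLeft₀ (2 * Real.pi) ha).measurableEmbedding.lintegral_map f

theorem weight (k : ℕ) (hk : 2 ≤ k) {r s : ℝ} (hr : 0 < r) (hs : s ∈ Ioo (0 : ℝ) 1) :
    (Real.cos (Real.arcsin s) ^ (k - 2)) ^ 2 *
      (min 1 ((r * Real.cos (Real.arcsin s)) ^ (-(((k : ℝ) - 1) / 2)))) ^ 2 ≤
    min 1 (r ^ (-((k : ℝ) - 1))) * (1 - s ^ 2) ^ (-(1 / 2) : ℝ) := by
  have hc2 : 0 < 1 - s ^ 2 := by nlinarith [hs.1, hs.2]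
  have hc1 : 1 - s ^ 2 ≤ 1 := by nlinarith [sq_nonneg s]
  have hk' : (2 : ℝ) ≤ k := by exact_mod_cast hk
  rw [Real.cos_arcsin]
  set c := Real.sqrt (1 - s ^ 2) with hc
  have hcpos : 0 < c := Real.sqrt_pos.2 hc2
  have hcle : c ≤ 1 := by rw [hc]; exact Real.sqrt_le_one.2 hc1
  have hw : c ^ (-1 : ℝ) = (1 - s ^ 2) ^ (-(1 / 2) : ℝ) := by
    rw [hc, Real.sqrt_eq_rpow, ← Real.rpow_mul hc2.le]
    congr 1
    ring
  rw [← hw]
  have hone : 1 ≤ c ^ (-1 : ℝ) := Real.one_le_rpow_of_pos_of_le_one_of_nonpos hcpos hcle (by norm_num)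
  have hcp : (c ^ (k - 2)) ^ 2 ≤ 1 := by
    rw [← pow_mul]
    exact pow_le_one₀ hcpos.le hcle
  have hm0 : 0 ≤ min 1 ((r * c) ^ (-(((k : ℝ) - 1) / 2))) := le_min zero_le_one (by positivity)
  have hm1 : min 1 ((r * c) ^ (-(((k : ℝ) - 1) / 2))) ≤ 1 := min_le_left _ _
  rcases le_total 1 (r ^ (-((k : ℝ) - 1))) with h | h
  · rw [min_eq_left h, one_mul]
    refine le_trans ?_ hone
    exact mul_le_one₀ hcp (sq_nonneg _) (pow_le_one₀ hm0 hm1)
  · rw [min_eq_right h]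
    have h1 : (min 1 ((r * c) ^ (-(((k : ℝ) - 1) / 2)))) ^ 2 ≤ (r * c) ^ (-((k : ℝ) - 1)) := by
      calc (min 1 ((r * c) ^ (-(((k : ℝ) - 1) / 2)))) ^ 2
          ≤ ((r * c) ^ (-(((k : ℝ) - 1) / 2))) ^ 2 := pow_le_pow_left₀ hm0 (min_le_right _ _) 2
        _ = (r * c) ^ (-((k : ℝ) - 1)) := by
            rw [← Real.rpow_natCast, ← Real.rpow_mul (by positivity)]
            congr 1
            push_cast
            ring
    have h1' : (r * c) ^ (-((k : ℝ) - 1)) = r ^ (-((k : ℝ) - 1)) * c ^ (-((k : ℝ) - 1)) :=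
      Real.mul_rpow hr.le hcpos.le
    rw [h1'] at h1
    have h2 : (c ^ (k - 2)) ^ 2 * c ^ (-((k : ℝ) - 1)) ≤ c ^ (-1 : ℝ) := by
      have e : (c ^ (k - 2)) ^ 2 = c ^ (2 * ((k : ℝ) - 2)) := by
        rw [← pow_mul, ← Real.rpow_natCast]
        congr 1
        rw [Nat.cast_mul, Nat.cast_sub hk]
        push_cast
        ring
      rw [e, ← Real.rpow_add hcpos]
      apply Real.rpow_le_rpow_of_exponent_ge hcpos hcle
      linarith
    have h3 : 0 ≤ r ^ (-((k : ℝ) - 1)) := by positivity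
    calc (c ^ (k - 2)) ^ 2 * (min 1 ((r * c) ^ (-(((k : ℝ) - 1) / 2)))) ^ 2
        ≤ (c ^ (k - 2)) ^ 2 * (r ^ (-((k : ℝ) - 1)) * c ^ (-((k : ℝ) - 1))) :=
          mul_le_mul_of_nonneg_left h1 (by positivity)
      _ = r ^ (-((k : ℝ) - 1)) * ((c ^ (k - 2)) ^ 2 * c ^ (-((k : ℝ) - 1))) := by ring
      _ ≤ r ^ (-((k : ℝ) - 1)) * c ^ (-1 : ℝ) := mul_le_mul_of_nonneg_left h2 h3

end Z1

/-! ## Z1: L2 bound in the axis variable -/
theorem zl2 (k : ℕ) (hk : 2 ≤ k) : ∃ C : ℝ, 0 < C ∧ ∀ (G : ℝ → ℂ) (M : ℝ), Measurable G →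
    (∀ θ, ‖G θ‖ ≤ M) → ∀ r : ℝ, 0 < r →
    ∫⁻ t, ENNReal.ofReal (‖Fz k G r t‖ ^ 2) ≤
      ENNReal.ofReal (C * M ^ 2 * min 1 (r ^ (-((k : ℝ) - 1)))) := by
  obtain ⟨C, hC, hdec⟩ := Phi_decay k hk
  have hpi := Real.pi_pos
  refine ⟨2 * Real.pi * (C ^ 2 * Real.pi), by positivity, ?_⟩
  intro G M hG hM r hr
  have hM0 : 0 ≤ M := (norm_nonneg _).trans (hM 0)
  set R : ℝ := min 1 (r ^ (-((k : ℝ) - 1))) with hR
  have hR0 : 0 ≤ R := le_min zero_le_one (by positivity)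
  have hp1 := Z1.g_memLp k hk G hG M hM r 1
  have hp2 := Z1.g_memLp k hk G hG M hM r 2
  obtain ⟨hF, hpl⟩ := Pool.Agent.Helper390.Covario.plancherel (memLp_one_iff_integrable.mp hp1) hp2
  have hL : ∫⁻ ξ : ℝ, ENNReal.ofReal (‖𝓕 (Z1.g k G r) ξ‖ ^ 2) =
      ∫⁻ x : ℝ, ENNReal.ofReal (‖Z1.g k G r x‖ ^ 2) := by
    rw [← ofReal_integral_eq_lintegral_ofReal, ← ofReal_integral_eq_lintegral_ofReal, hpl]
    · exact hp2.integrable_norm_pow (by norm_num)
    · exact Filter.Eventually.of_forall fun x => by positivity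
    · exact hF.integrable_norm_pow (by norm_num)
    · exact Filter.Eventually.of_forall fun x => by positivity
  simp only [Z1.ft k hk] at hL
  rw [Z1.scaling, hL]
  have hbound : ∫⁻ x : ℝ, ENNReal.ofReal (‖Z1.g k G r x‖ ^ 2) ≤
      ENNReal.ofReal (C ^ 2 * M ^ 2 * R * Real.pi) := by
    calc ∫⁻ x : ℝ, ENNReal.ofReal (‖Z1.g k G r x‖ ^ 2)
        ≤ ∫⁻ s, (Ioo (-1 : ℝ) 1).indicator (fun s => ENNReal.ofReal (C ^ 2 * M ^ 2 * R) *
            ENNReal.ofReal ((1 - s ^ 2) ^ (-(1 / 2) : ℝ))) s := by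
          refine lintegral_mono fun s => ?_
          by_cases hs : s ∈ Ioo (0 : ℝ) 1
          · have hs' : s ∈ Ioo (-1 : ℝ) 1 := ⟨by linarith [hs.1], hs.2⟩
            rw [indicator_of_mem hs', ← ENNReal.ofReal_mul (by positivity)]
            apply ENNReal.ofReal_le_ofReal
            have hcpos : 0 < Real.cos (Real.arcsin s) :=
              Pool.Agent.H438R2.BR.T7.cos_pos_Q (Pool.Agent.H438R2.BR.T7.arcsin_mem hs)
            have h1 := hdec (r * Real.cos (Real.arcsin s)) (by positivity)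
            have h2 := Z1.weight k hk hr hs
            have h3 : ‖Z1.g k G r s‖ ≤ M * (Real.cos (Real.arcsin s) ^ (k - 2) *
                (C * min 1 ((r * Real.cos (Real.arcsin s)) ^ (-(((k : ℝ) - 1) / 2))))) := by
              unfold Z1.g
              rw [indicator_of_mem hs, norm_mul, norm_mul, Complex.norm_real,
                Real.norm_of_nonneg (by positivity), mul_assoc]
              apply mul_le_mul (hM _) _ (by positivity) hM0
              exact mul_le_mul_of_nonneg_left h1 (by positivity)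
            calc ‖Z1.g k G r s‖ ^ 2 ≤ (M * (Real.cos (Real.arcsin s) ^ (k - 2) *
                (C * min 1 ((r * Real.cos (Real.arcsin s)) ^ (-(((k : ℝ) - 1) / 2)))))) ^ 2 :=
                  pow_le_pow_left₀ (norm_nonneg _) h3 2
              _ = C ^ 2 * M ^ 2 * ((Real.cos (Real.arcsin s) ^ (k - 2)) ^ 2 *
                (min 1 ((r * Real.cos (Real.arcsin s)) ^ (-(((k : ℝ) - 1) / 2)))) ^ 2) := by ring
              _ ≤ C ^ 2 * M ^ 2 * (R * (1 - s ^ 2) ^ (-(1 / 2) : ℝ)) :=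
                  mul_le_mul_of_nonneg_left h2 (by positivity)
              _ = C ^ 2 * M ^ 2 * R * (1 - s ^ 2) ^ (-(1 / 2) : ℝ) := by ring
          · have : Z1.g k G r s = 0 := by unfold Z1.g; rw [indicator_of_notMem hs]
            rw [this]
            simp
      _ = ENNReal.ofReal (C ^ 2 * M ^ 2 * R) *
            ∫⁻ s in Ioo (-1 : ℝ) 1, ENNReal.ofReal ((1 - s ^ 2) ^ (-(1 / 2) : ℝ)) := by
          rw [lintegral_indicator measurableSet_Ioo, lintegral_const_mul' _ _ ENNReal.ofReal_ne_top]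
      _ = _ := by
          rw [← ofReal_integral_eq_lintegral_ofReal Pool.Agent.H438R2.BR.arcsin_int.1,
            Pool.Agent.H438R2.BR.arcsin_int.2, ← ENNReal.ofReal_mul (by positivity)]
          filter_upwards [ae_restrict_mem measurableSet_Ioo] with s hs
          have : 0 < 1 - s ^ 2 := by nlinarith [hs.1, hs.2]
          simp only [Pi.zero_apply]
          positivity
  calc ENNReal.ofReal (2 * Real.pi) * ∫⁻ x : ℝ, ENNReal.ofReal (‖Z1.g k G r x‖ ^ 2)
      ≤ ENNReal.ofReal (2 * Real.pi) * ENNReal.ofReal (C ^ 2 * M ^ 2 * R * Real.pi) := by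
        gcongr
    _ = _ := by
        rw [← ENNReal.ofReal_mul (by positivity)]
        congr 1
        ring

end Pool.Agent.H438R2.ZD
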