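import Pool.Agent.H438R2.ZD.Defs
import Pool.Agent.H438R2.BR.T5
set_option autoImplicit false

/-! # The quadrilinear bound, uniform in `B` (task Z3, helper97) -/

namespace Pool.Agent.H438R2.ZD

open MeasureTheory Set
open scoped ENNReal
open Pool.Agent.H438R2.BR (Q K)
open Pool.Agent.H438R2.BR.T5 (psi dpsi hasFDerivAt_psi det_dpsi gg K_nonneg K_le K_neg K_cont
  gg_meas psi_meas lint_K Sd psi_swap inj_Sd strip psi_form)

namespace Z3

/-- `x^(-1/2)` -/
noncomputable def g (x : ℝ) : ℝ≥0∞ := ENNReal.ofReal (x ^ (-(1 / 2) : ℝ))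

theorem g_meas : Measurable g := by
  unfold g
  exact (measurable_id.pow_const _).ennreal_ofReal

/-- the kernel -/
noncomputable def kk (A x : ℝ) : ℝ≥0∞ := ENNReal.ofReal (K A x)

theorem kk_meas (A : ℝ) : Measurable (kk A) := (K_cont A).measurable.ennreal_ofReal

theorem kk_neg (A x : ℝ) : kk A (-x) = kk A x := by unfold kk; rw [K_neg]

theorem kk_le {A : ℝ} (hA : 0 ≤ A) (x : ℝ) : kk A x ≤ ENNReal.ofReal A :=
  ENNReal.ofReal_le_ofReal (K_le hA x)

theorem kk_int {A : ℝ} (hA : 0 < A) (a : ℝ) (s : Set ℝ) :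
    ∫⁻ y in s, kk A (a + y) ≤ ENNReal.ofReal Real.pi := by
  refine (setLIntegral_le_lintegral _ _).trans ?_
  rw [lintegral_add_left_eq_self (kk A) a]
  exact (lint_K hA).le

theorem kk_int' {A : ℝ} (hA : 0 < A) (a : ℝ) (s : Set ℝ) :
    ∫⁻ y in s, kk A (a - y) ≤ ENNReal.ofReal Real.pi := by
  refine (setLIntegral_le_lintegral _ _).trans ?_
  rw [lintegral_sub_left_eq_self (kk A) a]
  exact (lint_K hA).le

theorem g_int (a : ℝ) (ha : 0 ≤ a) :
    ∫⁻ x in Ioo 0 a, g x = ENNReal.ofReal (2 * a ^ (1 / 2 : ℝ)) := by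
  have hi : IntervalIntegrable (fun x : ℝ => x ^ (-(1 / 2) : ℝ)) volume 0 a :=
    intervalIntegral.intervalIntegrable_rpow' (by norm_num)
  have hi2 : IntegrableOn (fun x : ℝ => x ^ (-(1 / 2) : ℝ)) (Ioo 0 a) := by
    have := (intervalIntegrable_iff_integrableOn_Ioc_of_le ha).1 hi
    exact this.mono_set Ioo_subset_Ioc_self
  have h1 : ∫ x in Ioo 0 a, x ^ (-(1 / 2) : ℝ) = 2 * a ^ (1 / 2 : ℝ) := by
    rw [← integral_Ioc_eq_integral_Ioo, ← intervalIntegral.integral_of_le ha,
      integral_rpow (Or.inl (by norm_num))]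
    have e1 : (-(1 / 2) : ℝ) + 1 = 1 / 2 := by norm_num
    rw [e1, Real.zero_rpow (by norm_num), sub_zero]
    ring
  rw [← h1, ofReal_integral_eq_lintegral_ofReal hi2]
  · rfl
  · refine (ae_restrict_iff' measurableSet_Ioo).2 (Filter.Eventually.of_forall ?_)
    intro x hx
    exact Real.rpow_nonneg hx.1.le _

theorem g_anti {x y : ℝ} (hx : 0 < x) (hxy : x ≤ y) : g y ≤ g x := by
  unfold g
  apply ENNReal.ofReal_le_ofReal
  exact Real.rpow_le_rpow_of_nonpos hx hxy (by norm_num)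

theorem sub_int (F : ℝ → ℝ≥0∞) (a : ℝ) :
    ∫⁻ s in Ioo 0 a, F (a - s) = ∫⁻ y in Ioo 0 a, F y := by
  rw [← lintegral_indicator measurableSet_Ioo, ← lintegral_indicator measurableSet_Ioo,
    ← lintegral_sub_left_eq_self ((Ioo 0 a).indicator F) a]
  congr 1
  ext s
  by_cases hs : s ∈ Ioo 0 a
  · have hs' : a - s ∈ Ioo 0 a := ⟨by linarith [hs.2], by linarith [hs.1]⟩
    rw [indicator_of_mem hs, indicator_of_mem hs']
  · have hs' : a - s ∉ Ioo 0 a := fun h => hs ⟨by linarith [h.2], by linarith [h.1]⟩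
    rw [indicator_of_notMem hs, indicator_of_notMem hs']

theorem H_le {A : ℝ} (hA : 1 ≤ A) (a : ℝ) :
    ∫⁻ y in Ioo 0 2, kk A (a + y) * g y ≤ ENNReal.ofReal ((2 + Real.pi) * A ^ (1 / 2 : ℝ)) := by
  have hA0 : 0 < A := by linarith
  have hpi := Real.pi_pos
  set δ := 1 / A with hδ
  have hδ0 : 0 < δ := by positivity
  have hδ1 : δ ≤ 1 := by rw [hδ, div_le_one hA0]; exact hA
  have hsplit : Ioo (0 : ℝ) 2 ⊆ Ioo 0 δ ∪ Ico δ 2 := by
    intro t ht
    rcases lt_or_ge t δ with h | h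
    · left; exact ⟨ht.1, h⟩
    · right; exact ⟨h, ht.2⟩
  have hAs : A ^ (1 / 2 : ℝ) * A ^ (1 / 2 : ℝ) = A := by
    rw [← Real.rpow_add hA0]; norm_num
  have hδs : δ ^ (1 / 2 : ℝ) = (A ^ (1 / 2 : ℝ))⁻¹ := by
    rw [hδ, Real.div_rpow (by norm_num) hA0.le, Real.one_rpow, one_div]
  have hAp : 0 < A ^ (1 / 2 : ℝ) := by positivity
  calc ∫⁻ y in Ioo 0 2, kk A (a + y) * g y
      ≤ ∫⁻ y in Ioo 0 δ ∪ Ico δ 2, kk A (a + y) * g y := lintegral_mono_set hsplit
    _ ≤ (∫⁻ y in Ioo 0 δ, kk A (a + y) * g y) + ∫⁻ y in Ico δ 2, kk A (a + y) * g y :=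
        lintegral_union_le _ _ _
    _ ≤ ENNReal.ofReal (2 * A ^ (1 / 2 : ℝ)) + ENNReal.ofReal (Real.pi * A ^ (1 / 2 : ℝ)) := by
        refine add_le_add ?_ ?_
        · calc ∫⁻ y in Ioo 0 δ, kk A (a + y) * g y
              ≤ ∫⁻ y in Ioo 0 δ, ENNReal.ofReal A * g y :=
                lintegral_mono fun y => mul_le_mul_left (kk_le hA0.le _) _
            _ = ENNReal.ofReal A * ∫⁻ y in Ioo 0 δ, g y := lintegral_const_mul _ g_meas
            _ = ENNReal.ofReal (2 * A ^ (1 / 2 : ℝ)) := by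
                rw [g_int δ hδ0.le, ← ENNReal.ofReal_mul hA0.le]
                congr 1
                rw [hδs]
                field_simp
                nlinarith
        · calc ∫⁻ y in Ico δ 2, kk A (a + y) * g y
              ≤ ∫⁻ y in Ico δ 2, kk A (a + y) * ENNReal.ofReal (A ^ (1 / 2 : ℝ)) := by
                refine setLIntegral_mono' measurableSet_Ico fun y hy => ?_
                refine mul_le_mul_right ?_ _
                refine (g_anti hδ0 hy.1).trans (le_of_eq ?_)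
                unfold g
                congr 1
                rw [Real.rpow_neg hδ0.le, hδs, inv_inv]
            _ = (∫⁻ y in Ico δ 2, kk A (a + y)) * ENNReal.ofReal (A ^ (1 / 2 : ℝ)) :=
                lintegral_mul_const _ ((kk_meas A).comp (measurable_const_add a))
            _ ≤ ENNReal.ofReal Real.pi * ENNReal.ofReal (A ^ (1 / 2 : ℝ)) := by
                gcongr
                exact kk_int hA0 a _
            _ = _ := by rw [← ENNReal.ofReal_mul hpi.le]
    _ = _ := by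
        rw [← ENNReal.ofReal_add (by positivity) (by positivity)]
        congr 1
        ring

/-- the split weight -/
noncomputable def m (δ x y : ℝ) : ℝ≥0∞ := if x < δ then g x * g y else ENNReal.ofReal (1 / x)

theorem m_meas (δ : ℝ) : Measurable fun q : ℝ × ℝ => m δ q.1 q.2 := by
  unfold m
  refine Measurable.ite (measurableSet_lt measurable_fst measurable_const) ?_ ?_
  · exact (g_meas.comp measurable_fst).mul (g_meas.comp measurable_snd)
  · exact (measurable_const.div measurable_fst).ennreal_ofReal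

theorem g_mul_le {x y : ℝ} (hx : 0 < x) (hy : 0 < y) :
    g x * g y ≤ ENNReal.ofReal (1 / x) + ENNReal.ofReal (1 / y) := by
  unfold g
  rw [← ENNReal.ofReal_mul (by positivity), ← ENNReal.ofReal_add (by positivity) (by positivity)]
  apply ENNReal.ofReal_le_ofReal
  have e1 : ∀ z : ℝ, 0 < z → 1 / z = (z ^ (-(1 / 2) : ℝ)) ^ 2 := by
    intro z hz
    rw [← Real.rpow_natCast, ← Real.rpow_mul hz.le]
    norm_num [Real.rpow_neg_one]
  rw [e1 x hx, e1 y hy]
  nlinarith [sq_nonneg (x ^ (-(1 / 2) : ℝ) - y ^ (-(1 / 2) : ℝ)),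
    sq_nonneg (x ^ (-(1 / 2) : ℝ)), sq_nonneg (y ^ (-(1 / 2) : ℝ))]

theorem g_mul_le_m {δ x y : ℝ} (hx : 0 < x) (hy : 0 < y) :
    g x * g y ≤ m δ x y + m δ y x := by
  unfold m
  by_cases h1 : x < δ
  · rw [if_pos h1]; exact le_self_add
  · by_cases h2 : y < δ
    · rw [if_pos h2, mul_comm (g y)]; exact le_add_self
    · rw [if_neg h1, if_neg h2]; exact g_mul_le hx hy

theorem inv_int {δ : ℝ} (hδ : 0 < δ) (hδ2 : δ ≤ 2) :
    ∫⁻ x in Ico δ 2, ENNReal.ofReal (1 / x) ≤ ENNReal.ofReal (Real.log (2 / δ)) := by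
  have hint : IntegrableOn (fun t : ℝ => t⁻¹) (Ioc δ 2) := by
    have : IntervalIntegrable (fun t : ℝ => t⁻¹) volume δ 2 := by
      apply intervalIntegral.intervalIntegrable_inv
      · intro x hx
        rw [uIcc_of_le hδ2] at hx
        linarith [hx.1]
      · exact continuousOn_id
    exact (intervalIntegrable_iff_integrableOn_Ioc_of_le hδ2).mp this
  have h1 : ∫ t in Ioc δ 2, t⁻¹ = Real.log (2 / δ) := by
    rw [← intervalIntegral.integral_of_le hδ2, integral_inv_of_pos hδ (by norm_num)]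
  rw [← h1, ofReal_integral_eq_lintegral_ofReal hint]
  · rw [setLIntegral_congr (Ico_ae_eq_Ioc)]
    refine lintegral_mono fun x => ?_
    simp only [one_div]
    exact le_refl _
  · refine (ae_restrict_iff' measurableSet_Ioc).2 (Filter.Eventually.of_forall ?_)
    intro x hx
    exact inv_nonneg.2 (hδ.trans hx.1).le

theorem I1_le {A : ℝ} (hA : 1 ≤ A) (c : ℝ) :
    ∫⁻ x in Ioo 0 2, ∫⁻ y in Ioo 0 2, kk A (c - x + y) * m (1 / A) x y ≤
      ENNReal.ofReal (2 * (2 + Real.pi) + Real.pi * (1 + Real.log A)) := by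
  have hA0 : 0 < A := by linarith
  have hpi := Real.pi_pos
  set δ := 1 / A with hδ
  have hδ0 : 0 < δ := by positivity
  have hδ1 : δ ≤ 1 := by rw [hδ, div_le_one hA0]; exact hA
  have hsplit : Ioo (0 : ℝ) 2 ⊆ Ioo 0 δ ∪ Ico δ 2 := by
    intro t ht
    rcases lt_or_ge t δ with h | h
    · left; exact ⟨ht.1, h⟩
    · right; exact ⟨h, ht.2⟩
  have hAp : 0 < A ^ (1 / 2 : ℝ) := by positivity
  have hδs : δ ^ (1 / 2 : ℝ) = (A ^ (1 / 2 : ℝ))⁻¹ := by
    rw [hδ, Real.div_rpow (by norm_num) hA0.le, Real.one_rpow, one_div]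
  have hlog : Real.log (2 / δ) ≤ 1 + Real.log A := by
    rw [hδ, div_div_eq_mul_div, div_one, Real.log_mul (by norm_num) hA0.ne']
    have := Real.log_two_lt_d9
    linarith
  have hl : 0 ≤ Real.log A := Real.log_nonneg hA
  calc ∫⁻ x in Ioo 0 2, ∫⁻ y in Ioo 0 2, kk A (c - x + y) * m δ x y
      ≤ ∫⁻ x in Ioo 0 δ ∪ Ico δ 2, ∫⁻ y in Ioo 0 2, kk A (c - x + y) * m δ x y :=
        lintegral_mono_set hsplit
    _ ≤ (∫⁻ x in Ioo 0 δ, ∫⁻ y in Ioo 0 2, kk A (c - x + y) * m δ x y) +
        ∫⁻ x in Ico δ 2, ∫⁻ y in Ioo 0 2, kk A (c - x + y) * m δ x y :=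
        lintegral_union_le _ _ _
    _ ≤ ENNReal.ofReal (2 * (2 + Real.pi)) + ENNReal.ofReal (Real.pi * (1 + Real.log A)) := by
        refine add_le_add ?_ ?_
        · calc ∫⁻ x in Ioo 0 δ, ∫⁻ y in Ioo 0 2, kk A (c - x + y) * m δ x y
              ≤ ∫⁻ x in Ioo 0 δ, g x * ENNReal.ofReal ((2 + Real.pi) * A ^ (1 / 2 : ℝ)) := by
                refine setLIntegral_mono' measurableSet_Ioo fun x hx => ?_
                calc ∫⁻ y in Ioo 0 2, kk A (c - x + y) * m δ x y
                    = ∫⁻ y in Ioo 0 2, g x * (kk A (c - x + y) * g y) := by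
                      refine lintegral_congr fun y => ?_
                      unfold m
                      rw [if_pos hx.2]
                      ring
                  _ = g x * ∫⁻ y in Ioo 0 2, kk A (c - x + y) * g y :=
                      lintegral_const_mul _ (((kk_meas A).comp (measurable_const_add _)).mul g_meas)
                  _ ≤ _ := by
                      gcongr
                      exact H_le hA (c - x)
            _ = (∫⁻ x in Ioo 0 δ, g x) * ENNReal.ofReal ((2 + Real.pi) * A ^ (1 / 2 : ℝ)) :=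
                lintegral_mul_const _ g_meas
            _ = _ := by
                rw [g_int δ hδ0.le, ← ENNReal.ofReal_mul (by positivity)]
                congr 1
                rw [hδs]
                field_simp
        · calc ∫⁻ x in Ico δ 2, ∫⁻ y in Ioo 0 2, kk A (c - x + y) * m δ x y
              ≤ ∫⁻ x in Ico δ 2, ENNReal.ofReal (1 / x) * ENNReal.ofReal Real.pi := by
                refine setLIntegral_mono' measurableSet_Ico fun x hx => ?_
                calc ∫⁻ y in Ioo 0 2, kk A (c - x + y) * m δ x y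
                    = ∫⁻ y in Ioo 0 2, ENNReal.ofReal (1 / x) * kk A (c - x + y) := by
                      refine lintegral_congr fun y => ?_
                      unfold m
                      rw [if_neg (not_lt.2 hx.1)]
                      ring
                  _ = ENNReal.ofReal (1 / x) * ∫⁻ y in Ioo 0 2, kk A (c - x + y) :=
                      lintegral_const_mul _ ((kk_meas A).comp (measurable_const_add _))
                  _ ≤ _ := by
                      gcongr
                      exact kk_int hA0 (c - x) _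
            _ = (∫⁻ x in Ico δ 2, ENNReal.ofReal (1 / x)) * ENNReal.ofReal Real.pi :=
                lintegral_mul_const _ (measurable_const.div measurable_id).ennreal_ofReal
            _ ≤ ENNReal.ofReal (1 + Real.log A) * ENNReal.ofReal Real.pi := by
                gcongr
                exact (inv_int hδ0 (by linarith)).trans (ENNReal.ofReal_le_ofReal hlog)
            _ = _ := by rw [← ENNReal.ofReal_mul (by positivity), mul_comm]
    _ = _ := by
        rw [← ENNReal.ofReal_add (by positivity) (by positivity)]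

theorem JJ {A : ℝ} (hA : 1 ≤ A) (c : ℝ) :
    ∫⁻ x in Ioo 0 2, ∫⁻ y in Ioo 0 2, kk A (c - x + y) * (g x * g y) ≤
      ENNReal.ofReal ((4 * (2 + Real.pi) + 2 * Real.pi) * (1 + Real.log A)) := by
  have hpi := Real.pi_pos
  have hl : 0 ≤ Real.log A := Real.log_nonneg hA
  have hmm : Measurable fun q : ℝ × ℝ => kk A (c - q.1 + q.2) * m (1 / A) q.1 q.2 :=
    ((kk_meas A).comp ((measurable_const.sub measurable_fst).add measurable_snd)).mul (m_meas _)
  have hmm2 : Measurable fun q : ℝ × ℝ => kk A (c - q.1 + q.2) * m (1 / A) q.2 q.1 :=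
    ((kk_meas A).comp ((measurable_const.sub measurable_fst).add measurable_snd)).mul
      ((m_meas _).comp measurable_swap)
  calc ∫⁻ x in Ioo 0 2, ∫⁻ y in Ioo 0 2, kk A (c - x + y) * (g x * g y)
      ≤ ∫⁻ x in Ioo 0 2, ∫⁻ y in Ioo 0 2, (kk A (c - x + y) * m (1 / A) x y +
          kk A (c - x + y) * m (1 / A) y x) := by
        refine setLIntegral_mono' measurableSet_Ioo fun x hx => ?_
        refine setLIntegral_mono' measurableSet_Ioo fun y hy => ?_
        rw [← mul_add]
        gcongr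
        exact g_mul_le_m hx.1 hy.1
    _ = ∫⁻ x in Ioo 0 2, ((∫⁻ y in Ioo 0 2, kk A (c - x + y) * m (1 / A) x y) +
          ∫⁻ y in Ioo 0 2, kk A (c - x + y) * m (1 / A) y x) := by
        refine lintegral_congr fun x => ?_
        exact lintegral_add_left (hmm.comp measurable_prodMk_left) _
    _ = (∫⁻ x in Ioo 0 2, ∫⁻ y in Ioo 0 2, kk A (c - x + y) * m (1 / A) x y) +
          ∫⁻ x in Ioo 0 2, ∫⁻ y in Ioo 0 2, kk A (c - x + y) * m (1 / A) y x :=
        lintegral_add_left (Measurable.lintegral_prod_right' hmm) _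
    _ ≤ ENNReal.ofReal (2 * (2 + Real.pi) + Real.pi * (1 + Real.log A)) +
        ENNReal.ofReal (2 * (2 + Real.pi) + Real.pi * (1 + Real.log A)) := by
        refine add_le_add (I1_le hA c) ?_
        rw [lintegral_lintegral_swap hmm2.aemeasurable]
        refine le_trans (le_of_eq ?_) (I1_le hA (-c))
        refine lintegral_congr fun y => lintegral_congr fun x => ?_
        rw [← kk_neg]
        congr 2
        ring
    _ ≤ _ := by
        rw [← ENNReal.ofReal_add (by positivity) (by positivity)]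
        apply ENNReal.ofReal_le_ofReal
        nlinarith

/-- half-chord length -/
noncomputable def e (t : ℝ) : ℝ := Real.sqrt (4 - t ^ 2)

/-- the `s`-weight -/
noncomputable def h (t s : ℝ) : ℝ≥0∞ := if 0 < s ∧ s < e t then g (e t - s) else 0

/-- the `t`-weight -/
noncomputable def w (t : ℝ) : ℝ≥0∞ :=
  if 0 < t ∧ t < 2 then ENNReal.ofReal (Real.sqrt 2) * g (e t) else 0

/-- the weight of the push-forward -/
noncomputable def W (u : ℝ × ℝ) : ℝ≥0∞ := w u.2 * h u.2 u.1

theorem e_meas : Measurable e := by unfold e; fun_prop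

theorem h_meas : Measurable fun q : ℝ × ℝ => h q.1 q.2 := by
  unfold h
  refine Measurable.ite ?_ ?_ measurable_const
  · exact (measurableSet_lt measurable_const measurable_snd).inter
      (measurableSet_lt measurable_snd (e_meas.comp measurable_fst))
  · exact g_meas.comp ((e_meas.comp measurable_fst).sub measurable_snd)

theorem w_meas : Measurable w := by
  unfold w
  refine Measurable.ite ?_ ?_ measurable_const
  · exact measurableSet_Ioo
  · exact measurable_const.mul (g_meas.comp e_meas)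

theorem W_meas : Measurable W := by
  unfold W
  exact (w_meas.comp measurable_snd).mul (h_meas.comp measurable_swap)

/-- the half of `Q × Q` -/
def S0 : Set (ℝ × ℝ) := {p | p.1 ∈ Q ∧ p.2 ∈ Q ∧ p.1 < p.2}

theorem S0_meas : MeasurableSet S0 := by
  have hQ : MeasurableSet Q := measurableSet_Ioo
  have h1 : MeasurableSet {p : ℝ × ℝ | p.1 ∈ Q} := measurable_fst hQ
  have h2 : MeasurableSet {p : ℝ × ℝ | p.2 ∈ Q} := measurable_snd hQ
  have h3 : MeasurableSet {p : ℝ × ℝ | p.1 < p.2} := measurableSet_lt measurable_fst measurable_snd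
  exact h1.inter (h2.inter h3)

theorem inj_S0 : InjOn psi S0 := by
  rintro p ⟨h1, h2, h3⟩ p' ⟨h1', h2', h3'⟩ h
  have hδ : 0 < min (p.2 - p.1) (p'.2 - p'.1) := lt_min (by linarith) (by linarith)
  exact inj_Sd _ hδ ⟨h1, h2, min_le_left _ _⟩ ⟨h1', h2', min_le_right _ _⟩ h

/-- the weight dominates the inverse Jacobian -/
theorem one_le_W {p : ℝ × ℝ} (hp : p ∈ S0) :
    1 ≤ ENNReal.ofReal |(dpsi p).det| * W (psi p) := by
  obtain ⟨⟨h1, h2⟩, ⟨h3, h4⟩, h5⟩ := hp
  have hpi := Real.pi_pos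
  set a := (p.2 - p.1) / 2 with ha
  set b := (p.1 + p.2) / 2 with hb
  have ha0 : 0 < a := by rw [ha]; linarith
  have ha1 : a ≤ Real.pi / 4 := by rw [ha]; linarith
  have hb0 : 0 < b := by rw [hb]; linarith
  have hb1 : b < Real.pi / 2 := by rw [hb]; linarith
  have hsa : 0 < Real.sin a := Real.sin_pos_of_pos_of_lt_pi ha0 (by linarith)
  have hca : Real.sqrt 2 / 2 ≤ Real.cos a := by
    rw [← Real.cos_pi_div_four]
    exact Real.cos_le_cos_of_nonneg_of_le_pi ha0.le (by linarith) ha1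
  have hsb : 0 < Real.sin b := Real.sin_pos_of_pos_of_lt_pi hb0 (by linarith)
  have hcb : 0 < Real.cos b := Real.cos_pos_of_mem_Ioo ⟨by linarith, by linarith⟩
  have hs2 : 0 < Real.sqrt 2 := by positivity
  have hca0 : 0 < Real.cos a := by linarith [half_pos hs2]
  have ea := Real.sin_sq_add_cos_sq a
  have eb := Real.sin_sq_add_cos_sq b
  have hca1 : Real.cos a < 1 := by nlinarith [pow_pos hsa 2]
  have hsb1 : Real.sin b < 1 := by nlinarith [pow_pos hcb 2]
  have hpsi := psi_form p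
  rw [← ha, ← hb] at hpsi
  set s := 2 * Real.cos a * Real.cos b with hs
  set t := 2 * Real.cos a * Real.sin b with ht
  have hs0 : 0 < s := by positivity
  have ht0 : 0 < t := by positivity
  have ht2 : t < 2 := by
    have : Real.cos a * Real.sin b < 1 := by nlinarith
    rw [ht]; linarith
  have hst : 4 - t ^ 2 - s ^ 2 = 4 * Real.sin a ^ 2 := by
    rw [hs, ht]
    linear_combination (-4 * Real.cos a ^ 2) * eb - 4 * ea
  have hsa2 : 0 < Real.sin a ^ 2 := by positivity
  have hE : 0 < 4 - t ^ 2 := by nlinarith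
  have he2 : e t ^ 2 = 4 - t ^ 2 := by unfold e; exact Real.sq_sqrt hE.le
  have he0 : 0 < e t := by unfold e; exact Real.sqrt_pos.2 hE
  have hse : s < e t := by
    by_contra hcon
    push Not at hcon
    nlinarith
  have hsin : Real.sin (p.2 - p.1) = 2 * Real.sin a * Real.cos a := by
    rw [← Real.sin_two_mul]; congr 1; rw [ha]; ring
  have hdet : |(dpsi p).det| = 2 * Real.sin a * Real.cos a := by
    rw [det_dpsi, hsin]
    rw [abs_of_nonneg (by nlinarith [mul_pos hsa hca0])]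
    ring
  have hW : W (psi p) = ENNReal.ofReal (Real.sqrt 2 * (e t) ^ (-(1 / 2) : ℝ) *
      (e t - s) ^ (-(1 / 2) : ℝ)) := by
    rw [hpsi]
    unfold W w h
    simp only
    rw [if_pos ⟨ht0, ht2⟩, if_pos ⟨hs0, hse⟩]
    unfold g
    rw [← ENNReal.ofReal_mul (by positivity), ← ENNReal.ofReal_mul (by positivity)]
  have hes : 0 < e t - s := by linarith
  rw [hdet, hW, ← ENNReal.ofReal_mul (by positivity), ← ENNReal.ofReal_one]
  apply ENNReal.ofReal_le_ofReal
  have hX : (e t) ^ (-(1 / 2) : ℝ) * (e t - s) ^ (-(1 / 2) : ℝ) =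
      (e t * (e t - s)) ^ (-(1 / 2) : ℝ) := (Real.mul_rpow he0.le hes.le).symm
  have hle : e t * (e t - s) ≤ 4 * Real.sin a ^ 2 := by
    rw [← hst, ← he2]
    nlinarith [mul_pos hs0 hes]
  have hX2 : (4 * Real.sin a ^ 2) ^ (-(1 / 2) : ℝ) ≤ (e t * (e t - s)) ^ (-(1 / 2) : ℝ) :=
    Real.rpow_le_rpow_of_nonpos (by positivity) hle (by norm_num)
  have hX3 : (4 * Real.sin a ^ 2) ^ (-(1 / 2) : ℝ) = 1 / (2 * Real.sin a) := by
    rw [Real.rpow_neg (by positivity), ← Real.sqrt_eq_rpow, one_div]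
    congr 1
    rw [show 4 * Real.sin a ^ 2 = (2 * Real.sin a) ^ 2 by ring]
    exact Real.sqrt_sq (by positivity)
  rw [mul_assoc, mul_assoc (Real.sqrt 2), hX]
  rw [hX3] at hX2
  have h22 : Real.sqrt 2 * Real.sqrt 2 = 2 := Real.mul_self_sqrt (by norm_num)
  calc (1 : ℝ) = (2 * Real.sin a) * ((Real.sqrt 2 / 2) * (Real.sqrt 2 * (1 / (2 * Real.sin a)))) := by
        field_simp
        linarith
    _ ≤ (2 * Real.sin a) * (Real.cos a * (Real.sqrt 2 * (e t * (e t - s)) ^ (-(1 / 2) : ℝ))) := by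
        gcongr
    _ = _ := by ring

theorem push_half (f : ℝ × ℝ → ℝ≥0∞) (s : Set (ℝ × ℝ)) (hs : MeasurableSet s)
    (hinj : InjOn psi s) (hW : ∀ p ∈ s, 1 ≤ ENNReal.ofReal |(dpsi p).det| * W (psi p)) :
    ∫⁻ p in s, f (psi p) ≤ ∫⁻ u, f u * W u := by
  have h1 : ∫⁻ p in s, ENNReal.ofReal |(dpsi p).det| * (f (psi p) * W (psi p)) =
      ∫⁻ x in psi '' s, f x * W x :=
    (lintegral_image_eq_lintegral_abs_det_fderiv_mul volume hs
      (fun x _ => (hasFDerivAt_psi x).hasFDerivWithinAt) hinj (fun x => f x * W x)).symm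
  calc ∫⁻ p in s, f (psi p)
      ≤ ∫⁻ p in s, ENNReal.ofReal |(dpsi p).det| * (f (psi p) * W (psi p)) := by
        refine setLIntegral_mono' hs fun p hp => ?_
        calc f (psi p) = f (psi p) * 1 := (mul_one _).symm
          _ ≤ f (psi p) * (ENNReal.ofReal |(dpsi p).det| * W (psi p)) := by
              gcongr; exact hW p hp
          _ = _ := by ring
    _ = ∫⁻ x in psi '' s, f x * W x := h1
    _ ≤ _ := setLIntegral_le_lintegral _ _

theorem diag_null :
    ((volume.restrict Q).prod (volume.restrict Q)) {p : ℝ × ℝ | p.1 = p.2} = 0 := by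
  refine le_antisymm ?_ (zero_le)
  refine ENNReal.le_of_forall_pos_le_add fun ε hε _ => ?_
  rw [zero_add]
  have hε' : (0 : ℝ) < ε := by exact_mod_cast hε
  calc ((volume.restrict Q).prod (volume.restrict Q)) {p : ℝ × ℝ | p.1 = p.2}
      ≤ ((volume.restrict Q).prod (volume.restrict Q)) {p : ℝ × ℝ | |p.1 - p.2| ≤ ε / 4} := by
        refine measure_mono fun p hp => ?_
        have hp' : p.1 = p.2 := hp
        show |p.1 - p.2| ≤ ε / 4
        rw [hp', sub_self, abs_zero]
        positivity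
    _ ≤ ENNReal.ofReal (4 * (ε / 4)) := strip _ (by positivity)
    _ = ε := by
        rw [show 4 * ((ε : ℝ) / 4) = ε by ring]
        exact ENNReal.ofReal_coe_nnreal

theorem push (f : ℝ × ℝ → ℝ≥0∞) :
    ∫⁻ p, f (psi p) ∂((volume.restrict Q).prod (volume.restrict Q)) ≤
      2 * ∫⁻ u, f u * W u := by
  set D : Set (ℝ × ℝ) := {p : ℝ × ℝ | p.1 = p.2} with hD
  have hDm : MeasurableSet D := measurableSet_eq_fun measurable_fst measurable_snd
  have h0 := diag_null
  have e1 : ∫⁻ p, f (psi p) ∂((volume.restrict Q).prod (volume.restrict Q)) =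
      ∫⁻ p in Dᶜ, f (psi p) ∂((volume.restrict Q).prod (volume.restrict Q)) := by
    rw [← lintegral_add_compl _ hDm]
    rw [setLIntegral_measure_zero _ _ h0, zero_add]
  rw [e1, Measure.prod_restrict, Measure.restrict_restrict hDm.compl]
  have hsub : Dᶜ ∩ Q ×ˢ Q ⊆ S0 ∪ Prod.swap ⁻¹' S0 := by
    rintro p ⟨h1, h2, h3⟩
    have h1' : p.1 ≠ p.2 := h1
    rcases lt_or_gt_of_ne h1' with h | h
    · left; exact ⟨h2, h3, h⟩
    · right; exact ⟨h3, h2, h⟩
  calc ∫⁻ p in Dᶜ ∩ Q ×ˢ Q, f (psi p) ∂((volume : Measure ℝ).prod volume)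
      ≤ ∫⁻ p in S0 ∪ Prod.swap ⁻¹' S0, f (psi p) ∂((volume : Measure ℝ).prod volume) :=
        lintegral_mono_set hsub
    _ ≤ ∫⁻ p in S0, f (psi p) ∂((volume : Measure ℝ).prod volume) +
        ∫⁻ p in Prod.swap ⁻¹' S0, f (psi p) ∂((volume : Measure ℝ).prod volume) :=
        lintegral_union_le _ _ _
    _ ≤ (∫⁻ u, f u * W u) + ∫⁻ u, f u * W u := by
        refine add_le_add ?_ ?_
        · exact push_half f S0 S0_meas inj_S0 fun p hp => one_le_W hp
        · refine push_half f _ (measurable_swap S0_meas) ?_ ?_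
          · intro p hp p' hp' h
            have := inj_S0 hp hp' (by rw [psi_swap, psi_swap, h])
            exact Prod.swap_injective this
          · intro p hp
            have := one_le_W (p := p.swap) hp
            rw [psi_swap] at this
            refine this.trans (le_of_eq ?_)
            congr 2
            rw [det_dpsi, det_dpsi]
            simp only [Prod.fst_swap, Prod.snd_swap]
            rw [← neg_sub p.2 p.1, Real.sin_neg, neg_mul, neg_mul, abs_neg]
    _ = _ := (two_mul _).symm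

theorem gg_eq {A B : ℝ} (hA : 0 ≤ A) (u v : ℝ × ℝ) :
    gg A B (u - v) = kk A (u.1 - v.1) * kk B (u.2 - v.2) := by
  unfold gg kk
  rw [Prod.fst_sub, Prod.snd_sub, ENNReal.ofReal_mul (K_nonneg hA _)]

theorem stepB (A B : ℝ) :
    ∫⁻ p, ∫⁻ q, gg A B (psi p - psi q)
      ∂((volume.restrict Q).prod (volume.restrict Q))
      ∂((volume.restrict Q).prod (volume.restrict Q)) ≤
      2 * ∫⁻ u, (2 * ∫⁻ u', gg A B (u - u') * W u') * W u := by
  calc ∫⁻ p, ∫⁻ q, gg A B (psi p - psi q)
      ∂((volume.restrict Q).prod (volume.restrict Q))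
      ∂((volume.restrict Q).prod (volume.restrict Q))
      ≤ ∫⁻ p, (2 * ∫⁻ u', gg A B (psi p - u') * W u')
        ∂((volume.restrict Q).prod (volume.restrict Q)) :=
        lintegral_mono fun p => push fun u => gg A B (psi p - u)
    _ ≤ _ := push fun u => 2 * ∫⁻ u', gg A B (u - u') * W u'

/-- the inner integral -/
theorem inner_le {A : ℝ} (hA : 1 ≤ A) (t t' : ℝ) :
    ∫⁻ s, ∫⁻ s', kk A (s - s') * (h t s * h t' s') ≤
      ENNReal.ofReal ((4 * (2 + Real.pi) + 2 * Real.pi) * (1 + Real.log A)) := by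
  have he : ∀ t, e t ≤ 2 := by
    intro t
    unfold e
    rw [Real.sqrt_le_left (by norm_num)]
    nlinarith [sq_nonneg t]
  have hind : ∀ t s, h t s = (Ioo 0 (e t)).indicator (fun s => g (e t - s)) s := by
    intro t s
    unfold h
    by_cases hs : s ∈ Ioo 0 (e t)
    · rw [indicator_of_mem hs, if_pos (show 0 < s ∧ s < e t from hs)]
    · rw [indicator_of_notMem hs, if_neg (show ¬ (0 < s ∧ s < e t) from hs)]
  have h1 : ∀ (t : ℝ) (F : ℝ → ℝ≥0∞), ∫⁻ s, F s * h t s = ∫⁻ s in Ioo 0 (e t), F s * g (e t - s) := by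
    intro t F
    rw [← lintegral_indicator measurableSet_Ioo]
    refine lintegral_congr fun s => ?_
    rw [hind]
    by_cases hs : s ∈ Ioo 0 (e t)
    · rw [indicator_of_mem hs, indicator_of_mem hs]
    · rw [indicator_of_notMem hs, indicator_of_notMem hs, mul_zero]
  have h2 : ∀ s, ∫⁻ s', kk A (s - s') * (h t s * h t' s') =
      (∫⁻ y in Ioo 0 (e t'), kk A (s - e t' + y) * g y) * h t s := by
    intro s
    have hm1 : Measurable fun y => kk A (s - e t' + y) * g y :=
      ((kk_meas A).comp (measurable_const_add _)).mul g_meas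
    calc ∫⁻ s', kk A (s - s') * (h t s * h t' s')
        = ∫⁻ s', (kk A (s - s') * h t s) * h t' s' := by
          refine lintegral_congr fun s' => ?_
          ring
      _ = ∫⁻ s' in Ioo 0 (e t'), (kk A (s - s') * h t s) * g (e t' - s') := h1 t' _
      _ = ∫⁻ y in Ioo 0 (e t'), kk A (s - (e t' - y)) * h t s * g y := by
          rw [← sub_int (fun y => kk A (s - (e t' - y)) * h t s * g y) (e t')]
          refine lintegral_congr fun s' => ?_
          simp only [sub_sub_cancel]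
      _ = ∫⁻ y in Ioo 0 (e t'), (kk A (s - e t' + y) * g y) * h t s := by
          refine lintegral_congr fun y => ?_
          rw [show s - (e t' - y) = s - e t' + y by ring]
          ring
      _ = _ := lintegral_mul_const _ hm1
  calc ∫⁻ s, ∫⁻ s', kk A (s - s') * (h t s * h t' s')
      = ∫⁻ s, (∫⁻ y in Ioo 0 (e t'), kk A (s - e t' + y) * g y) * h t s :=
        lintegral_congr h2
    _ = ∫⁻ s in Ioo 0 (e t), (∫⁻ y in Ioo 0 (e t'), kk A (s - e t' + y) * g y) * g (e t - s) :=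
        h1 t _
    _ = ∫⁻ x in Ioo 0 (e t), (∫⁻ y in Ioo 0 (e t'), kk A ((e t - x) - e t' + y) * g y) * g x := by
        rw [← sub_int (fun x => (∫⁻ y in Ioo 0 (e t'), kk A ((e t - x) - e t' + y) * g y) * g x) (e t)]
        refine lintegral_congr fun s => ?_
        simp only [sub_sub_cancel]
    _ ≤ ∫⁻ x in Ioo 0 2, (∫⁻ y in Ioo 0 2, kk A ((e t - x) - e t' + y) * g y) * g x := by
        refine (lintegral_mono_set (Ioo_subset_Ioo_right (he t))).trans ?_
        refine lintegral_mono fun x => ?_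
        refine mul_le_mul_left ?_ _
        exact lintegral_mono_set (Ioo_subset_Ioo_right (he t'))
    _ = ∫⁻ x in Ioo 0 2, ∫⁻ y in Ioo 0 2, kk A ((e t - e t') - x + y) * (g x * g y) := by
        refine lintegral_congr fun x => ?_
        have hm1 : Measurable fun y => kk A ((e t - x) - e t' + y) * g y :=
          ((kk_meas A).comp (measurable_const_add _)).mul g_meas
        rw [← lintegral_mul_const _ hm1]
        refine lintegral_congr fun y => ?_
        rw [show e t - x - e t' + y = (e t - e t') - x + y by ring]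
        ring
    _ ≤ _ := JJ hA _

/-- the final weight -/
noncomputable def v (t : ℝ) : ℝ≥0∞ := (Ioo 0 2).indicator (fun t => g (2 - t)) t

theorem w_mul_le (t t' : ℝ) : w t * w t' ≤ 2 * (v t + v t') := by
  have key : ∀ t : ℝ, 0 < t → t < 2 → 0 < e t ∧ ENNReal.ofReal (1 / e t) ≤ g (2 - t) := by
    intro t h1 h2
    have h3 : 0 < 4 - t ^ 2 := by nlinarith
    have h4 : 0 < e t := Real.sqrt_pos.2 h3
    refine ⟨h4, ?_⟩
    unfold g
    apply ENNReal.ofReal_le_ofReal
    have h5 : (2 - t) ^ (-(1 / 2) : ℝ) = 1 / Real.sqrt (2 - t) := by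
      rw [Real.rpow_neg (by linarith), ← Real.sqrt_eq_rpow, one_div]
    rw [h5]
    apply one_div_le_one_div_of_le (Real.sqrt_pos.2 (by linarith))
    unfold e
    apply Real.sqrt_le_sqrt
    nlinarith
  unfold w
  by_cases h1 : 0 < t ∧ t < 2
  · by_cases h2 : 0 < t' ∧ t' < 2
    · obtain ⟨a1, a2⟩ := key t h1.1 h1.2
      obtain ⟨b1, b2⟩ := key t' h2.1 h2.2
      unfold v
      rw [if_pos h1, if_pos h2, indicator_of_mem (show t ∈ Ioo 0 2 from h1),
        indicator_of_mem (show t' ∈ Ioo 0 2 from h2)]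
      calc ENNReal.ofReal (Real.sqrt 2) * g (e t) * (ENNReal.ofReal (Real.sqrt 2) * g (e t'))
          = (ENNReal.ofReal (Real.sqrt 2) * ENNReal.ofReal (Real.sqrt 2)) * (g (e t) * g (e t')) := by
            ring
        _ = 2 * (g (e t) * g (e t')) := by
            rw [← ENNReal.ofReal_mul (by positivity), Real.mul_self_sqrt (by norm_num)]
            norm_num
        _ ≤ 2 * (ENNReal.ofReal (1 / e t) + ENNReal.ofReal (1 / e t')) := by
            gcongr
            exact g_mul_le a1 b1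
        _ ≤ _ := by gcongr
    · rw [if_neg h2, mul_zero]; exact zero_le
  · rw [if_neg h1, zero_mul]; exact zero_le

theorem v_int : ∫⁻ t, v t =
    ENNReal.ofReal (2 * (2 : ℝ) ^ (1 / 2 : ℝ)) := by
  unfold v
  rw [lintegral_indicator measurableSet_Ioo, sub_int g 2, g_int 2 (by norm_num)]

theorem v_meas : Measurable v :=
  (g_meas.comp (measurable_const.sub measurable_id)).indicator measurableSet_Ioo

/-- the outer integral -/
theorem outer_le {B : ℝ} (hB : 0 < B) :
    ∫⁻ t, ∫⁻ t', kk B (t - t') * (w t * w t') ≤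
      ENNReal.ofReal (8 * Real.pi * (2 : ℝ) ^ (1 / 2 : ℝ)) := by
  have hpi := Real.pi_pos
  have hvm : Measurable v := v_meas
  have hk : ∀ a : ℝ, ∫⁻ y, kk B (a - y) ≤ ENNReal.ofReal Real.pi := by
    intro a
    have := kk_int' hB a univ
    rwa [setLIntegral_univ] at this
  have hk' : ∀ a : ℝ, ∫⁻ y, kk B (y - a) ≤ ENNReal.ofReal Real.pi := by
    intro a
    refine le_trans (le_of_eq ?_) (hk a)
    refine lintegral_congr fun y => ?_
    rw [← kk_neg, neg_sub]
  have hm1 : Measurable fun q : ℝ × ℝ => kk B (q.1 - q.2) * v q.1 :=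
    ((kk_meas B).comp (measurable_fst.sub measurable_snd)).mul (hvm.comp measurable_fst)
  have hm2 : Measurable fun q : ℝ × ℝ => kk B (q.1 - q.2) * v q.2 :=
    ((kk_meas B).comp (measurable_fst.sub measurable_snd)).mul (hvm.comp measurable_snd)
  have i1 : ∫⁻ t, ∫⁻ t', kk B (t - t') * v t ≤ ENNReal.ofReal (2 * Real.pi * (2 : ℝ) ^ (1 / 2 : ℝ)) := by
    calc ∫⁻ t, ∫⁻ t', kk B (t - t') * v t
        = ∫⁻ t, (∫⁻ t', kk B (t - t')) * v t := by
          refine lintegral_congr fun t => ?_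
          exact lintegral_mul_const _ ((kk_meas B).comp (measurable_const.sub measurable_id))
      _ ≤ ∫⁻ t, ENNReal.ofReal Real.pi * v t := lintegral_mono fun t => mul_le_mul_left (hk t) _
      _ = ENNReal.ofReal Real.pi * ∫⁻ t, v t := lintegral_const_mul _ hvm
      _ = _ := by
          rw [v_int, ← ENNReal.ofReal_mul hpi.le]
          congr 1
          ring
  have i2 : ∫⁻ t, ∫⁻ t', kk B (t - t') * v t' ≤ ENNReal.ofReal (2 * Real.pi * (2 : ℝ) ^ (1 / 2 : ℝ)) := by
    rw [lintegral_lintegral_swap hm2.aemeasurable]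
    calc ∫⁻ t', ∫⁻ t, kk B (t - t') * v t'
        = ∫⁻ t', (∫⁻ t, kk B (t - t')) * v t' := by
          refine lintegral_congr fun t => ?_
          exact lintegral_mul_const _ ((kk_meas B).comp (measurable_id.sub measurable_const))
      _ ≤ ∫⁻ t', ENNReal.ofReal Real.pi * v t' := lintegral_mono fun t => mul_le_mul_left (hk' t) _
      _ = ENNReal.ofReal Real.pi * ∫⁻ t, v t := lintegral_const_mul _ hvm
      _ = _ := by
          rw [v_int, ← ENNReal.ofReal_mul hpi.le]
          congr 1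
          ring
  calc ∫⁻ t, ∫⁻ t', kk B (t - t') * (w t * w t')
      ≤ ∫⁻ t, ∫⁻ t', 2 * (kk B (t - t') * v t + kk B (t - t') * v t') := by
        refine lintegral_mono fun t => lintegral_mono fun t' => ?_
        calc kk B (t - t') * (w t * w t') ≤ kk B (t - t') * (2 * (v t + v t')) :=
              mul_le_mul_right (w_mul_le t t') _
          _ = _ := by ring
    _ = ∫⁻ t, 2 * ((∫⁻ t', kk B (t - t') * v t) + ∫⁻ t', kk B (t - t') * v t') := by
        refine lintegral_congr fun t => ?_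
        have b1 : Measurable fun t' => kk B (t - t') * v t :=
          ((kk_meas B).comp (measurable_const.sub measurable_id)).mul_const _
        have b2 : Measurable fun t' => kk B (t - t') * v t' :=
          ((kk_meas B).comp (measurable_const.sub measurable_id)).mul hvm
        rw [lintegral_const_mul' _ _ (by simp), lintegral_add_left b1]
    _ = 2 * ((∫⁻ t, ∫⁻ t', kk B (t - t') * v t) + ∫⁻ t, ∫⁻ t', kk B (t - t') * v t') := by
        have c1 : Measurable fun t => ∫⁻ t', kk B (t - t') * v t := hm1.lintegral_prod_right'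
        have c2 : Measurable fun t => ∫⁻ t', kk B (t - t') * v t' := hm2.lintegral_prod_right'
        rw [lintegral_const_mul' _ _ (by simp), lintegral_add_left c1]
    _ ≤ 2 * (ENNReal.ofReal (2 * Real.pi * (2 : ℝ) ^ (1 / 2 : ℝ)) +
          ENNReal.ofReal (2 * Real.pi * (2 : ℝ) ^ (1 / 2 : ℝ))) := by
        gcongr
    _ = _ := by
        rw [← ENNReal.ofReal_add (by positivity) (by positivity)]
        rw [show (2 : ℝ≥0∞) = ENNReal.ofReal 2 by simp, ← ENNReal.ofReal_mul (by norm_num)]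
        congr 1
        ring

/-- the full integrand, in coordinates `(s,t,s',t')` -/
noncomputable def GG (A B s t s' t' : ℝ) : ℝ≥0∞ :=
  (kk A (s - s') * kk B (t - t')) * (w t' * h t' s') * (w t * h t s)

theorem GG_meas1 (A B t : ℝ) : Measurable fun z : (ℝ × ℝ) × ℝ => GG A B z.1.1 t z.2 z.1.2 := by
  unfold GG
  have a1 : Measurable fun z : (ℝ × ℝ) × ℝ => kk A (z.1.1 - z.2) :=
    (kk_meas A).comp (by fun_prop)
  have a2 : Measurable fun z : (ℝ × ℝ) × ℝ => kk B (t - z.1.2) :=
    (kk_meas B).comp (by fun_prop)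
  have a3 : Measurable fun z : (ℝ × ℝ) × ℝ => w z.1.2 := w_meas.comp (by fun_prop)
  have a4 : Measurable fun z : (ℝ × ℝ) × ℝ => h z.1.2 z.2 := by
    have b : Measurable fun z : (ℝ × ℝ) × ℝ => ((z.1.2, z.2) : ℝ × ℝ) := by fun_prop
    exact h_meas.comp b
  have a5 : Measurable fun z : (ℝ × ℝ) × ℝ => h t z.1.1 := by
    have b : Measurable fun z : (ℝ × ℝ) × ℝ => ((t, z.1.1) : ℝ × ℝ) := by fun_prop
    exact h_meas.comp b
  exact (((a1.mul a2).mul (a3.mul a4)).mul (a5.const_mul _))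

theorem GG_meas0 (A B : ℝ) : Measurable fun z : (ℝ × ℝ) × (ℝ × ℝ) =>
    GG A B z.1.1 z.1.2 z.2.1 z.2.2 := by
  unfold GG
  have a1 : Measurable fun z : (ℝ × ℝ) × (ℝ × ℝ) => kk A (z.1.1 - z.2.1) :=
    (kk_meas A).comp (by fun_prop)
  have a2 : Measurable fun z : (ℝ × ℝ) × (ℝ × ℝ) => kk B (z.1.2 - z.2.2) :=
    (kk_meas B).comp (by fun_prop)
  have a3 : Measurable fun z : (ℝ × ℝ) × (ℝ × ℝ) => w z.2.2 := w_meas.comp (by fun_prop)
  have a3' : Measurable fun z : (ℝ × ℝ) × (ℝ × ℝ) => w z.1.2 := w_meas.comp (by fun_prop)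
  have a4 : Measurable fun z : (ℝ × ℝ) × (ℝ × ℝ) => h z.2.2 z.2.1 := by
    have b : Measurable fun z : (ℝ × ℝ) × (ℝ × ℝ) => ((z.2.2, z.2.1) : ℝ × ℝ) := by fun_prop
    exact h_meas.comp b
  have a5 : Measurable fun z : (ℝ × ℝ) × (ℝ × ℝ) => h z.1.2 z.1.1 := by
    have b : Measurable fun z : (ℝ × ℝ) × (ℝ × ℝ) => ((z.1.2, z.1.1) : ℝ × ℝ) := by fun_prop
    exact h_meas.comp b
  exact (((a1.mul a2).mul (a3.mul a4)).mul (a3'.mul a5))

theorem GG_eq {A B : ℝ} (hA : 0 ≤ A) (u u' : ℝ × ℝ) :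
    gg A B (u - u') * W u' * W u = GG A B u.1 u.2 u'.1 u'.2 := by
  rw [gg_eq hA]
  rfl

theorem GG_in (A B s t : ℝ) : ∫⁻ u' : ℝ × ℝ, GG A B s t u'.1 u'.2 =
    ∫⁻ t', ∫⁻ s', GG A B s t s' t' := by
  have hm : Measurable fun u' : ℝ × ℝ => GG A B s t u'.1 u'.2 := by
    unfold GG
    have a1 : Measurable fun z : ℝ × ℝ => kk A (s - z.1) := (kk_meas A).comp (by fun_prop)
    have a2 : Measurable fun z : ℝ × ℝ => kk B (t - z.2) := (kk_meas B).comp (by fun_prop)
    have a3 : Measurable fun z : ℝ × ℝ => w z.2 := w_meas.comp (by fun_prop)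
    have a4 : Measurable fun z : ℝ × ℝ => h z.2 z.1 := by
      have b : Measurable fun z : ℝ × ℝ => ((z.2, z.1) : ℝ × ℝ) := by fun_prop
      exact h_meas.comp b
    exact ((a1.mul a2).mul (a3.mul a4)).mul_const _
  exact lintegral_prod_symm _ hm.aemeasurable

theorem GG_swap (A B t : ℝ) : ∫⁻ s, ∫⁻ t', ∫⁻ s', GG A B s t s' t' =
    ∫⁻ t', ∫⁻ s, ∫⁻ s', GG A B s t s' t' := by
  have hm' : Measurable fun q : ℝ × ℝ => ∫⁻ s', GG A B q.1 t s' q.2 :=
    (GG_meas1 A B t).lintegral_prod_right'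
  exact lintegral_lintegral_swap hm'.aemeasurable

theorem GG_pull (A B t t' : ℝ) : ∫⁻ s, ∫⁻ s', GG A B s t s' t' =
    (kk B (t - t') * (w t * w t')) * ∫⁻ s, ∫⁻ s', kk A (s - s') * (h t s * h t' s') := by
  have hne : kk B (t - t') * (w t * w t') ≠ ⊤ := by
    have hw : ∀ t, w t ≠ ⊤ := by
      intro t
      unfold w
      split_ifs
      · exact ENNReal.mul_ne_top ENNReal.ofReal_ne_top ENNReal.ofReal_ne_top
      · exact ENNReal.zero_ne_top
    exact ENNReal.mul_ne_top ENNReal.ofReal_ne_top (ENNReal.mul_ne_top (hw _) (hw _))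
  rw [← lintegral_const_mul' _ _ hne]
  refine lintegral_congr fun s => ?_
  rw [← lintegral_const_mul' _ _ hne]
  refine lintegral_congr fun s' => ?_
  unfold GG
  ring

theorem stepC {A B : ℝ} (hA : 0 ≤ A) :
    ∫⁻ u, (∫⁻ u', gg A B (u - u') * W u') * W u =
      ∫⁻ t, ∫⁻ t', (kk B (t - t') * (w t * w t')) *
        ∫⁻ s, ∫⁻ s', kk A (s - s') * (h t s * h t' s') := by
  have hpull : ∀ u : ℝ × ℝ, (∫⁻ u', gg A B (u - u') * W u') * W u =
      ∫⁻ u' : ℝ × ℝ, GG A B u.1 u.2 u'.1 u'.2 := by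
    intro u
    have hm : Measurable fun u' : ℝ × ℝ => gg A B (u - u') * W u' :=
      ((gg_meas A B).comp (measurable_const.sub measurable_id)).mul W_meas
    rw [← lintegral_mul_const _ hm]
    exact lintegral_congr fun u' => GG_eq hA u u'
  have hG1 : Measurable fun u : ℝ × ℝ => ∫⁻ u' : ℝ × ℝ, GG A B u.1 u.2 u'.1 u'.2 :=
    (GG_meas0 A B).lintegral_prod_right'
  calc ∫⁻ u, (∫⁻ u', gg A B (u - u') * W u') * W u
      = ∫⁻ u : ℝ × ℝ, ∫⁻ u' : ℝ × ℝ, GG A B u.1 u.2 u'.1 u'.2 := lintegral_congr hpull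
    _ = ∫⁻ t, ∫⁻ s, ∫⁻ u' : ℝ × ℝ, GG A B s t u'.1 u'.2 :=
        lintegral_prod_symm _ hG1.aemeasurable
    _ = ∫⁻ t, ∫⁻ s, ∫⁻ t', ∫⁻ s', GG A B s t s' t' :=
        lintegral_congr fun t => lintegral_congr fun s => GG_in A B s t
    _ = ∫⁻ t, ∫⁻ t', ∫⁻ s, ∫⁻ s', GG A B s t s' t' :=
        lintegral_congr fun t => GG_swap A B t
    _ = _ := lintegral_congr fun t => lintegral_congr fun t' => GG_pull A B t t'

theorem final {A B : ℝ} (hA : 1 ≤ A) (hB : 1 ≤ B) :
    ∫⁻ p, ∫⁻ q, gg A B (psi p - psi q)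
      ∂((volume.restrict Q).prod (volume.restrict Q))
      ∂((volume.restrict Q).prod (volume.restrict Q)) ≤
      ENNReal.ofReal (4 * (8 * Real.pi * (2 : ℝ) ^ (1 / 2 : ℝ)) *
        (4 * (2 + Real.pi) + 2 * Real.pi) * (1 + Real.log A)) := by
  have hpi := Real.pi_pos
  have hl : 0 ≤ Real.log A := Real.log_nonneg hA
  set CC := ENNReal.ofReal ((4 * (2 + Real.pi) + 2 * Real.pi) * (1 + Real.log A)) with hCC
  have hB1 : ∫⁻ u, (2 * ∫⁻ u', gg A B (u - u') * W u') * W u =
      2 * ∫⁻ u, (∫⁻ u', gg A B (u - u') * W u') * W u := by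
    rw [← lintegral_const_mul' _ _ (by simp)]
    exact lintegral_congr fun u => mul_assoc _ _ _
  have hC1 : ∫⁻ u, (∫⁻ u', gg A B (u - u') * W u') * W u ≤
      ENNReal.ofReal (8 * Real.pi * (2 : ℝ) ^ (1 / 2 : ℝ)) * CC := by
    rw [stepC (by linarith)]
    calc ∫⁻ t, ∫⁻ t', (kk B (t - t') * (w t * w t')) *
          ∫⁻ s, ∫⁻ s', kk A (s - s') * (h t s * h t' s')
        ≤ ∫⁻ t, ∫⁻ t', (kk B (t - t') * (w t * w t')) * CC := by
          refine lintegral_mono fun t => lintegral_mono fun t' => ?_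
          exact mul_le_mul_right (inner_le hA t t') _
      _ = ∫⁻ t, (∫⁻ t', kk B (t - t') * (w t * w t')) * CC := by
          refine lintegral_congr fun t => ?_
          exact lintegral_mul_const' _ _ ENNReal.ofReal_ne_top
      _ = (∫⁻ t, ∫⁻ t', kk B (t - t') * (w t * w t')) * CC :=
          lintegral_mul_const' _ _ ENNReal.ofReal_ne_top
      _ ≤ _ := by
          gcongr
          exact outer_le (by linarith)
  calc ∫⁻ p, ∫⁻ q, gg A B (psi p - psi q)
      ∂((volume.restrict Q).prod (volume.restrict Q))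
      ∂((volume.restrict Q).prod (volume.restrict Q))
      ≤ 2 * ∫⁻ u, (2 * ∫⁻ u', gg A B (u - u') * W u') * W u := stepB A B
    _ = 2 * (2 * ∫⁻ u, (∫⁻ u', gg A B (u - u') * W u') * W u) := by rw [hB1]
    _ ≤ 2 * (2 * (ENNReal.ofReal (8 * Real.pi * (2 : ℝ) ^ (1 / 2 : ℝ)) * CC)) := by gcongr
    _ = _ := by
        rw [hCC, ← ENNReal.ofReal_mul (by positivity), show (2 : ℝ≥0∞) = ENNReal.ofReal 2 by simp,
          ← ENNReal.ofReal_mul (by norm_num), ← ENNReal.ofReal_mul (by norm_num)]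
        congr 1
        ring

end Z3

theorem Q4z : ∃ C : ℝ, 0 < C ∧ ∀ A B : ℝ, 1 ≤ A → 1 ≤ B →
    ∫⁻ x in Q, ∫⁻ y in Q, ∫⁻ z in Q, ∫⁻ v in Q,
      ENNReal.ofReal (K A (Real.cos x + Real.cos y - Real.cos z - Real.cos v) *
      K B (Real.sin x + Real.sin y - Real.sin z - Real.sin v)) ≤
      ENNReal.ofReal (C * (1 + Real.log A)) := by
  have hpi := Real.pi_pos
  refine ⟨4 * (8 * Real.pi * (2 : ℝ) ^ (1 / 2 : ℝ)) * (4 * (2 + Real.pi) + 2 * Real.pi),
    by positivity, fun A B hA hB => ?_⟩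
  rw [Pool.Agent.H438R2.BR.T5.toProd]
  exact Z3.final hA hB

end Pool.Agent.H438R2.ZD
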