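import Mathlib
import Pool.Agent.H438R2.ZD.Defs
import Pool.Agent.H438R2.BR.T6
import Pool.Agent.H438R2.ZD.Z2
import Pool.Agent.H438R2.ZD.Z3
set_option autoImplicit false

/-! # Z4: the `L^4` bound for the profile of a zonal density (helper594) -/

namespace Pool.Agent.H438R2.ZD

open MeasureTheory Set Complex
open scoped ENNReal
open Pool.Agent.H438R2.BR

namespace Z4

/-- the oscillatory piece of `Fz` -/
noncomputable def zf (k : ℕ) (G : ℝ → ℂ) (a y r t : ℝ) : ℂ :=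
  ∫ θ in Q, (G θ * (((Real.cos θ) ^ (k - 1) : ℝ) : ℂ)) *
    Complex.exp (-((r : ℂ) * (((Real.cos θ : ℝ) : ℂ) * ((y : ℂ) - a * I))) -
      ((t * Real.sin θ : ℝ) : ℂ) * I)

theorem gk {X : Type*} [MeasurableSpace X] (μ : Measure X) [IsFiniteMeasure μ]
    (h : X → ℂ) (a b : X → ℝ) (hh : Measurable h) (ham : Measurable a) (hbm : Measurable b)
    (M : ℝ) (hM : ∀ x, ‖h x‖ ≤ M) (ha : ∀ x, 0 ≤ a x)
    (N : ℕ) (A B : ℝ) (hA : 0 < A) (hB : 0 < B) (y e1 : ℝ) (hy : 0 ≤ y)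
    (he1 : e1 ^ 2 = 1) :
    ∫⁻ r in Ioi (0 : ℝ), ∫⁻ t : ℝ, ENNReal.ofReal (ka (4 * N + 1) A r *
        Real.exp (-(|t| / B)) * ‖∫ x, h x * Complex.exp (-((r : ℂ) * ((a x : ℂ) *
          ((y : ℂ) - e1 * I))) - ((t * b x : ℝ) : ℂ) * I) ∂μ‖ ^ 2) ≤
      ENNReal.ofReal (2 * ((4 * N + 1).factorial : ℝ)) * ∫⁻ x, ∫⁻ x',
        ENNReal.ofReal (‖h x‖ * ‖h x'‖ / (1 + A * y * (a x + a x')) ^ (4 * N) *
          (K A (a x - a x') * K B (b x - b x'))) ∂μ ∂μ := by
  refine (zker μ h (fun x => (a x : ℂ) * ((y : ℂ) - e1 * I)) b hh (by fun_prop) hbm M hM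
    ?_ (4 * N + 1) A B hA hB).trans ?_
  · intro x
    simp only [Complex.mul_re, Complex.sub_re, Complex.ofReal_re, Complex.I_re, mul_zero,
      Complex.ofReal_im, Complex.I_im, mul_one, sub_self, sub_zero, zero_mul, Complex.sub_im]
    have := mul_nonneg (ha x) hy
    linarith
  · apply mul_le_mul_right
    apply lintegral_mono
    intro x
    apply lintegral_mono
    intro x'
    apply ENNReal.ofReal_le_ofReal
    have e1' := norm_low N hA hy (ha x) (ha x') he1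
    have p1 : 0 < (1 + A * y * (a x + a x')) ^ (4 * N) * (1 + A ^ 2 * (a x - a x') ^ 2) := by
      have := ha x
      have := ha x'
      positivity
    have q1 := div_le_div_of_nonneg_left hA.le p1 e1'
    have hK := K_nn (x := b x - b x') hB
    calc _ ≤ ‖h x‖ * ‖h x'‖ *
          (A / ((1 + A * y * (a x + a x')) ^ (4 * N) * (1 + A ^ 2 * (a x - a x') ^ 2))) *
          K B (b x - b x') := by
          gcongr
      _ = _ := by
          unfold K
          have := ha x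
          have := ha x'
          have n1 : (1 + A * y * (a x + a x')) ^ (4 * N) ≠ 0 := by positivity
          have n3 : 1 + A ^ 2 * (a x - a x') ^ 2 ≠ 0 := by positivity
          have n4 : 1 + B ^ 2 * (b x - b x') ^ 2 ≠ 0 := by positivity
          field_simp

/-- the amplitude with absolute values -/
noncomputable def z0 (k : ℕ) (G : ℝ → ℂ) (θ : ℝ) : ℂ :=
  G θ * ((|Real.cos θ| ^ (k - 1) : ℝ) : ℂ)

theorem z0_meas (k : ℕ) (G : ℝ → ℂ) (hG : Measurable G) : Measurable (z0 k G) := by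
  unfold z0
  fun_prop

theorem z0_norm (k : ℕ) (G : ℝ → ℂ) (θ : ℝ) :
    ‖z0 k G θ‖ = ‖G θ‖ * |Real.cos θ| ^ (k - 1) := by
  unfold z0
  rw [norm_mul, Complex.norm_real, Real.norm_eq_abs, abs_of_nonneg (by positivity)]

theorem z0_le (k : ℕ) (G : ℝ → ℂ) (M : ℝ) (hM : ∀ θ, ‖G θ‖ ≤ M) (θ : ℝ) :
    ‖z0 k G θ‖ ≤ M := by
  rw [z0_norm]
  have h1 : |Real.cos θ| ^ (k - 1) ≤ 1 := pow_le_one₀ (abs_nonneg _) (Real.abs_cos_le_one θ)
  calc _ ≤ M * 1 := by
        apply mul_le_mul (hM θ) h1 (by positivity) ((norm_nonneg _).trans (hM 0))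
    _ = M := mul_one M

theorem z0_w (k N : ℕ) (hk : k - 1 ≤ N) (G : ℝ → ℂ) (M : ℝ)
    (hM : ∀ θ, ‖G θ‖ ≤ M) {A y : ℝ} (hA : 0 < A) (hy : 0 < y)
    (θ R : ℝ) (hR : 1 + A * y * |Real.cos θ| ≤ R) :
    ‖z0 k G θ‖ ≤ M * w k A y * R ^ N := by
  have hM0 : 0 ≤ M := (norm_nonneg _).trans (hM 0)
  rw [z0_norm]
  have h1 := wl k N hk hA hy (abs_nonneg _) (Real.abs_cos_le_one θ) hR
  calc _ ≤ M * (w k A y * R ^ N) := by
        apply mul_le_mul (hM θ) h1 (by positivity) hM0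
    _ = _ := by ring

theorem zf_abs (k : ℕ) (G : ℝ → ℂ) (a y r t : ℝ) : zf k G a y r t =
    ∫ θ in Q, z0 k G θ * Complex.exp (-((r : ℂ) * (((|Real.cos θ| : ℝ) : ℂ) *
      ((y : ℂ) - a * I))) - ((t * Real.sin θ : ℝ) : ℂ) * I) := by
  unfold zf z0
  apply setIntegral_congr_fun measurableSet_Ioo
  intro θ hθ
  have h1 := Q_cos hθ
  simp only [abs_of_pos h1]

theorem zf_sq (k : ℕ) (G : ℝ → ℂ) (e1 y r t : ℝ) :
    zf k G e1 y r t * zf k G e1 y r t =
    ∫ x : ℝ × ℝ, (z0 k G x.1 * z0 k G x.2) *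
      Complex.exp (-((r : ℂ) * (((|Real.cos x.1| + |Real.cos x.2| : ℝ) : ℂ) *
      ((y : ℂ) - e1 * I))) - ((t * (Real.sin x.1 + Real.sin x.2) : ℝ) : ℂ) * I)
      ∂((volume.restrict Q).prod (volume.restrict Q)) := by
  rw [zf_abs, ← integral_prod_mul]
  congr 1
  ext x
  rw [mul_mul_mul_comm, ← Complex.exp_add]
  congr 2
  push_cast
  ring

theorem ker4 (k : ℕ) (G : ℝ → ℂ) (hG : Measurable G) (M : ℝ) (hM : ∀ θ, ‖G θ‖ ≤ M)
    (A B : ℝ) (hA : 0 < A) (hB : 0 < B) (y e1 : ℝ) (hy : 0 < y)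
    (he1 : e1 ^ 2 = 1) :
    ∫⁻ r in Ioi (0 : ℝ), ∫⁻ t : ℝ, ENNReal.ofReal (ka (4 * k + 1) A r *
        Real.exp (-(|t| / B)) * ‖zf k G e1 y r t‖ ^ 4) ≤
      ENNReal.ofReal (2 * ((4 * k + 1).factorial : ℝ) * (M ^ 4 *
        (w k A y) ^ 4)) * ∫⁻ x in Q, ∫⁻ x' in Q, ∫⁻ v in Q, ∫⁻ v' in Q,
        ENNReal.ofReal (K A (Real.cos x + Real.cos x' - Real.cos v - Real.cos v') *
          K B (Real.sin x + Real.sin x' - Real.sin v - Real.sin v')) := by
  have hM0 : 0 ≤ M := (norm_nonneg _).trans (hM 0)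
  have hw1 := T2.w_nonneg k hA hy
  have hsq : ∀ r t : ℝ, ‖zf k G e1 y r t‖ ^ 4 = ‖∫ x : ℝ × ℝ, (z0 k G x.1 * z0 k G x.2) *
      Complex.exp (-((r : ℂ) * (((|Real.cos x.1| + |Real.cos x.2| : ℝ) : ℂ) *
      ((y : ℂ) - e1 * I))) - ((t * (Real.sin x.1 + Real.sin x.2) : ℝ) : ℂ) * I)
      ∂((volume.restrict Q).prod (volume.restrict Q))‖ ^ 2 := by
    intro r t
    rw [← zf_sq, norm_mul]
    ring
  simp_rw [hsq]
  refine (gk ((volume.restrict Q).prod (volume.restrict Q))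
    (fun x : ℝ × ℝ => z0 k G x.1 * z0 k G x.2)
    (fun x : ℝ × ℝ => |Real.cos x.1| + |Real.cos x.2|)
    (fun x : ℝ × ℝ => Real.sin x.1 + Real.sin x.2)
    (((z0_meas k G hG).comp measurable_fst).mul ((z0_meas k G hG).comp measurable_snd))
    (by fun_prop) (by fun_prop) (M * M) ?_ (fun _ => by positivity)
    k A B hA hB y e1 hy.le he1).trans ?_
  · intro x
    rw [norm_mul]
    exact mul_le_mul (z0_le k G M hM _) (z0_le k G M hM _) (norm_nonneg _) hM0
  rw [ENNReal.ofReal_mul (p := 2 * ((4 * k + 1).factorial : ℝ)) (by positivity), mul_assoc]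
  apply mul_le_mul_right
  have hmeas : Measurable fun p : (ℝ × ℝ) × (ℝ × ℝ) =>
      ENNReal.ofReal (K A (Real.cos p.1.1 + Real.cos p.1.2 - Real.cos p.2.1 - Real.cos p.2.2) *
          K B (Real.sin p.1.1 + Real.sin p.1.2 - Real.sin p.2.1 - Real.sin p.2.2)) := by
    unfold K
    fun_prop
  have hiter : ∫⁻ x in Q, ∫⁻ x' in Q, ∫⁻ v in Q, ∫⁻ v' in Q,
        ENNReal.ofReal (K A (Real.cos x + Real.cos x' - Real.cos v - Real.cos v') *
          K B (Real.sin x + Real.sin x' - Real.sin v - Real.sin v')) =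
      ∫⁻ x : ℝ × ℝ, ∫⁻ x' : ℝ × ℝ,
        ENNReal.ofReal (K A (Real.cos x.1 + Real.cos x.2 - Real.cos x'.1 - Real.cos x'.2) *
          K B (Real.sin x.1 + Real.sin x.2 - Real.sin x'.1 - Real.sin x'.2))
        ∂((volume.restrict Q).prod (volume.restrict Q))
        ∂((volume.restrict Q).prod (volume.restrict Q)) := by
    rw [lintegral_prod]
    · congr 1
      ext x
      congr 1
      ext x'
      rw [lintegral_prod]
      exact (hmeas.comp (measurable_const.prodMk measurable_id)).aemeasurable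
    · exact (Measurable.lintegral_prod_right' hmeas).aemeasurable
  rw [hiter, Measure.prod_restrict]
  rw [← lintegral_const_mul' _ _ ENNReal.ofReal_ne_top]
  apply setLIntegral_mono' (measurableSet_Ioo.prod measurableSet_Ioo)
  intro x hx
  rw [← lintegral_const_mul' _ _ ENNReal.ofReal_ne_top]
  apply setLIntegral_mono' (measurableSet_Ioo.prod measurableSet_Ioo)
  intro x' hx'
  rw [← ENNReal.ofReal_mul (by positivity)]
  apply ENNReal.ofReal_le_ofReal
  have c1 := Q_cos hx.1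
  have c2 := Q_cos hx.2
  have c3 := Q_cos hx'.1
  have c4 := Q_cos hx'.2
  simp only [abs_of_pos c1, abs_of_pos c2, abs_of_pos c3, abs_of_pos c4, ← sub_sub]
  apply mul_le_mul_of_nonneg_right _ (mul_nonneg (K_nn hA) (K_nn hB))
  have hAy : 0 < A * y := by positivity
  have p1 := mul_pos hAy c1
  have p2 := mul_pos hAy c2
  have p3 := mul_pos hAy c3
  have p4 := mul_pos hAy c4
  have i1 := z0_w k k (by omega) G M hM hA hy x.1
    (1 + A * y * (Real.cos x.1 + Real.cos x.2 + (Real.cos x'.1 + Real.cos x'.2)))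
    (by rw [abs_of_pos c1]; linarith)
  have i2 := z0_w k k (by omega) G M hM hA hy x.2
    (1 + A * y * (Real.cos x.1 + Real.cos x.2 + (Real.cos x'.1 + Real.cos x'.2)))
    (by rw [abs_of_pos c2]; linarith)
  have i3 := z0_w k k (by omega) G M hM hA hy x'.1
    (1 + A * y * (Real.cos x.1 + Real.cos x.2 + (Real.cos x'.1 + Real.cos x'.2)))
    (by rw [abs_of_pos c3]; linarith)
  have i4 := z0_w k k (by omega) G M hM hA hy x'.2
    (1 + A * y * (Real.cos x.1 + Real.cos x.2 + (Real.cos x'.1 + Real.cos x'.2)))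
    (by rw [abs_of_pos c4]; linarith)
  have hR : 1 ≤ 1 + A * y * (Real.cos x.1 + Real.cos x.2 + (Real.cos x'.1 + Real.cos x'.2)) := by
    linarith
  set R := 1 + A * y * (Real.cos x.1 + Real.cos x.2 + (Real.cos x'.1 + Real.cos x'.2))
  have hR0 : 0 < R := by linarith
  rw [div_le_iff₀ (by positivity), norm_mul, norm_mul]
  set W := M * w k A y * R ^ k
  have hW : 0 ≤ W := (norm_nonneg _).trans i1
  calc _ ≤ (W * W) * (W * W) := by
        apply mul_le_mul _ _ (by positivity) (by positivity)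
        · exact mul_le_mul i1 i2 (norm_nonneg _) hW
        · exact mul_le_mul i3 i4 (norm_nonneg _) hW
    _ = _ := by
        simp only [W]
        ring

/-! ### the pointwise bound of `Fz` -/

/-- the integrand -/
noncomputable def Hz (k : ℕ) (G : ℝ → ℂ) (e : Bool) (r t : ℝ) (p : ℝ × ℝ) : ℂ :=
  (G p.1 * (((Real.cos p.1) ^ (k - 1) : ℝ) : ℂ)) *
    ((Complex.exp (-(((r * Real.cos p.1 : ℝ) : ℂ) * ((p.2 : ℂ) - sg' e * I))) * sS e k p.2) *
    Complex.exp (-((t * Real.sin p.1 : ℝ) : ℂ) * I))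

theorem Hz_int (k : ℕ) (hk : 2 ≤ k) (G : ℝ → ℂ) (hG : Measurable G) (M : ℝ)
    (hM : ∀ θ, ‖G θ‖ ≤ M) (e : Bool) (r t : ℝ) (hr : 1 ≤ r) :
    Integrable (Hz k G e r t) ((volume.restrict Q).prod (volume.restrict (Ioi 0))) := by
  have hM0 : 0 ≤ M := (norm_nonneg _).trans (hM 0)
  have hr0 : 0 < r := by linarith
  have hb : Integrable (fun p : ℝ × ℝ => (M * ((k - 1).factorial * Real.exp 1)) *
      (‖sy k p.2‖ * w k r p.2)) ((volume.restrict Q).prod (volume.restrict (Ioi 0))) :=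
    (integrable_const _).mul_prod (wi_int k hk r hr)
  refine hb.mono' ?_ ?_
  · apply Measurable.aestronglyMeasurable
    unfold Hz
    have m1 : Measurable fun p : ℝ × ℝ => sS e k p.2 := (sS_meas e k).comp (by fun_prop)
    have m3 : Measurable fun p : ℝ × ℝ => G p.1 := hG.comp (by fun_prop)
    have m4 : Measurable fun p : ℝ × ℝ =>
      (((Real.cos p.1) ^ (k - 1) : ℝ) : ℂ) := by fun_prop
    have m5 : Measurable fun p : ℝ × ℝ =>
      Complex.exp (-(((r * Real.cos p.1 : ℝ) : ℂ) * ((p.2 : ℂ) - sg' e * I))) := by fun_prop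
    have m6 : Measurable fun p : ℝ × ℝ =>
      Complex.exp (-((t * Real.sin p.1 : ℝ) : ℂ) * I) := by fun_prop
    exact (m3.mul m4).mul ((m5.mul m1).mul m6)
  · rw [Measure.prod_restrict]
    filter_upwards [ae_restrict_mem (measurableSet_Ioo.prod measurableSet_Ioi)] with p hp
    obtain ⟨hp1, hp2⟩ := hp
    have hc := Q_cos hp1
    have hy : 0 < p.2 := hp2
    unfold Hz
    have n1 := nexp (r * Real.cos p.1) p.2 (sg' e)
    have n2 : ‖Complex.exp (-((t * Real.sin p.1 : ℝ) : ℂ) * I)‖ = 1 := by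
      rw [Complex.norm_exp]
      simp
    rw [norm_mul, norm_mul, norm_mul, norm_mul, n1, n2, sS_norm,
      Complex.norm_real, Real.norm_eq_abs, abs_of_nonneg (by positivity)]
    have l1 := lb k hc.le (Real.cos_le_one p.1) hr0 hy
    have w1 := w_pos k hr0 hy
    calc _ = ‖G p.1‖ * (Real.cos p.1 ^ (k - 1) * Real.exp (-(r * Real.cos p.1 * p.2))) *
          ‖sy k p.2‖ := by ring
      _ ≤ M * (((k - 1).factorial * Real.exp 1) * w k r p.2) * ‖sy k p.2‖ := by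
          have := hM p.1
          gcongr
      _ = _ := by ring

theorem Fz_pieces (k : ℕ) (hk : 2 ≤ k) (G : ℝ → ℂ) (hG : Measurable G) (M : ℝ)
    (hM : ∀ θ, ‖G θ‖ ≤ M) (r t : ℝ) (hr : 1 ≤ r) :
    ‖Fz k G r t‖ₑ ≤ ∑ e : Bool, ∫⁻ y in Ioi (0 : ℝ), ‖sy k y‖ₑ * ‖zf k G (sg' e) y r t‖ₑ := by
  have hr0 : 0 < r := by linarith
  have hin : ∀ e : Bool, ∀ θ, ∫ y in Ioi (0 : ℝ), Hz k G e r t (θ, y) =
      (G θ * (((Real.cos θ) ^ (k - 1) : ℝ) : ℂ)) *
        (P e k (r * Real.cos θ) * Complex.exp (-((t * Real.sin θ : ℝ) : ℂ) * I)) := by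
    intro e θ
    unfold Hz P
    simp only
    rw [integral_const_mul, integral_mul_const]
  have h1 : Fz k G r t = ∑ e : Bool, kap e *
      ∫ θ in Q, ∫ y in Ioi (0 : ℝ), Hz k G e r t (θ, y) := by
    simp_rw [← integral_const_mul]
    rw [← integral_finsetSum]
    · unfold Fz
      apply setIntegral_congr_fun measurableSet_Ioo
      intro θ hθ
      have hc := Q_cos hθ
      simp only
      rw [phi_split k hk _ (mul_pos hr0 hc)]
      simp_rw [integral_const_mul, hin]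
      rw [Fintype.sum_bool, Fintype.sum_bool]
      ring
    · intro e _
      simp_rw [integral_const_mul]
      exact ((Hz_int k hk G hG M hM e r t hr).integral_prod_left).const_mul _
  rw [h1]
  refine (enorm_sum_le _ _).trans ?_
  apply Finset.sum_le_sum
  intro e _
  rw [enorm_mul, kap_norm, one_mul]
  have h2 : ∫ θ in Q, ∫ y in Ioi (0 : ℝ), Hz k G e r t (θ, y) =
      ∫ y in Ioi (0 : ℝ), (∫ θ in Q, Hz k G e r t (θ, y)) :=
    integral_integral_swap (f := fun θ p => Hz k G e r t (θ, p))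
      (Hz_int k hk G hG M hM e r t hr)
  rw [h2]
  refine (enorm_integral_le_lintegral_enorm _).trans ?_
  apply lintegral_mono
  intro y
  have h3 : ∫ θ in Q, Hz k G e r t (θ, y) = sS e k y * zf k G (sg' e) y r t := by
    unfold zf Hz
    rw [← integral_const_mul]
    congr 1
    ext θ
    simp only
    have : Complex.exp (-((r : ℂ) * (((Real.cos θ : ℝ) : ℂ) * ((y : ℂ) - sg' e * I))) -
      ((t * Real.sin θ : ℝ) : ℂ) * I) =
      Complex.exp (-(((r * Real.cos θ : ℝ) : ℂ) * ((y : ℂ) - sg' e * I))) *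
      Complex.exp (-((t * Real.sin θ : ℝ) : ℂ) * I) := by
      rw [← Complex.exp_add]
      congr 1
      push_cast
      ring
    rw [this]
    ring
  simp only [h3]
  rw [enorm_mul]
  have n1 : ‖sS e k y‖ₑ = ‖sy k y‖ₑ := by
    rw [← ofReal_norm, ← ofReal_norm, sS_norm]
  rw [n1]

/-! ### boxes -/

theorem sum_pow_le (X : Bool → ℝ≥0∞) : (∑ i, X i) ^ 4 ≤ 2 ^ 4 * ∑ i, X i ^ 4 := by
  obtain ⟨j, -, hj⟩ := Finset.exists_max_image (Finset.univ : Finset Bool) X
    ⟨true, Finset.mem_univ _⟩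
  have h1 : ∑ i, X i ≤ 2 * X j := by
    calc ∑ i, X i ≤ ∑ _i : Bool, X j := Finset.sum_le_sum hj
      _ = 2 * X j := by simp
  calc (∑ i, X i) ^ 4 ≤ (2 * X j) ^ 4 := by gcongr
    _ = 2 ^ 4 * X j ^ 4 := by rw [mul_pow]
    _ ≤ _ := by
        gcongr
        exact Finset.single_le_sum (f := fun i => X i ^ 4) (fun _ _ => zero_le) (Finset.mem_univ j)

theorem zf_meas (k : ℕ) (G : ℝ → ℂ) (hG : Measurable G) (a : ℝ) :
    Measurable fun v : (ℝ × ℝ) × ℝ => zf k G a v.2 v.1.1 v.1.2 := by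
  unfold zf
  apply StronglyMeasurable.measurable
  apply StronglyMeasurable.integral_prod_right (f := fun (v : (ℝ × ℝ) × ℝ) (θ : ℝ) =>
    (G θ * (((Real.cos θ) ^ (k - 1) : ℝ) : ℂ)) *
    Complex.exp (-((v.1.1 : ℂ) * (((Real.cos θ : ℝ) : ℂ) * ((v.2 : ℂ) - a * I))) -
      ((v.1.2 * Real.sin θ : ℝ) : ℂ) * I))
  apply Measurable.stronglyMeasurable
  change Measurable fun p : ((ℝ × ℝ) × ℝ) × ℝ =>
    (G p.2 * (((Real.cos p.2) ^ (k - 1) : ℝ) : ℂ)) *
    Complex.exp (-((p.1.1.1 : ℂ) * (((Real.cos p.2 : ℝ) : ℂ) * ((p.1.2 : ℂ) - a * I))) -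
      ((p.1.1.2 * Real.sin p.2 : ℝ) : ℂ) * I)
  have h1 : Measurable fun p : ((ℝ × ℝ) × ℝ) × ℝ => G p.2 := hG.comp measurable_snd
  fun_prop

theorem Fz_meas' (k : ℕ) (G : ℝ → ℂ) (hG : Measurable G) :
    Measurable fun q : ℝ × ℝ => Fz k G q.1 q.2 := by
  unfold Fz
  apply StronglyMeasurable.measurable
  apply StronglyMeasurable.integral_prod_right (f := fun (q : ℝ × ℝ) (θ : ℝ) =>
    G θ * (((Real.cos θ) ^ (k - 1) : ℝ) : ℂ) *
    (Phi k (q.1 * Real.cos θ) * Complex.exp (-((q.2 * Real.sin θ : ℝ) : ℂ) * I)))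
  apply Measurable.stronglyMeasurable
  change Measurable fun p : (ℝ × ℝ) × ℝ =>
    G p.2 * (((Real.cos p.2) ^ (k - 1) : ℝ) : ℂ) *
    (Phi k (p.1.1 * Real.cos p.2) * Complex.exp (-((p.1.2 * Real.sin p.2 : ℝ) : ℂ) * I))
  have h1 : Measurable fun p : (ℝ × ℝ) × ℝ => G p.2 := hG.comp measurable_snd
  have h2 : Measurable fun p : (ℝ × ℝ) × ℝ => (((Real.cos p.2) ^ (k - 1) : ℝ) : ℂ) := by fun_prop
  have h3 : Measurable fun p : (ℝ × ℝ) × ℝ => Phi k (p.1.1 * Real.cos p.2) :=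
    (Phi_meas k).comp (by fun_prop)
  have h4 : Measurable fun p : (ℝ × ℝ) × ℝ =>
    Complex.exp (-((p.1.2 * Real.sin p.2 : ℝ) : ℂ) * I) := by fun_prop
  exact (h1.mul h2).mul (h3.mul h4)

/-- the weight on the half line -/
noncomputable def WW (k : ℕ) (A : ℝ) (y : ℝ) : ℝ≥0∞ := ENNReal.ofReal (‖sy k y‖ * w k A y)

theorem WW_meas (k : ℕ) (A : ℝ) : Measurable (WW k A) := by
  unfold WW
  exact ((sy_meas k).norm.mul (w_meas k A)).ennreal_ofReal

/-- the normalized oscillatory piece -/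
noncomputable def gg (k : ℕ) (G : ℝ → ℂ) (a A : ℝ) (q : ℝ × ℝ) (y : ℝ) : ℝ≥0∞ :=
  ENNReal.ofReal (‖zf k G a y q.1 q.2‖ * (w k A y)⁻¹)

theorem gg_meas (k : ℕ) (G : ℝ → ℂ) (hG : Measurable G) (a A : ℝ) :
    Measurable fun v : (ℝ × ℝ) × ℝ => gg k G a A v.1 v.2 := by
  unfold gg
  have h1 := (zf_meas k G hG a).norm
  have h2 : Measurable fun v : (ℝ × ℝ) × ℝ => w k A v.2 :=
    (w_meas k A).comp (by fun_prop)
  exact (h1.mul h2.inv).ennreal_ofReal

theorem gg_meas2 (k : ℕ) (G : ℝ → ℂ) (hG : Measurable G) (a A : ℝ) (v : ℝ × ℝ) :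
    Measurable fun y : ℝ => gg k G a A v y := by
  have h1 : Measurable fun p : ℝ => (v, p) := measurable_prodMk_left
  have h2 := Measurable.comp (gg_meas k G hG a A) h1
  exact h2

theorem gg_int (k : ℕ) (G : ℝ → ℂ) (hG : Measurable G) (a A B : ℝ) (hA : 1 ≤ A) (hB : 1 ≤ B)
    (D : ℝ≥0∞) (q : ℕ) (y : ℝ) (hy : 0 < y)
    (hker : ∫⁻ r in Ioi (0 : ℝ), ∫⁻ t : ℝ, ENNReal.ofReal (ka q A r *
        Real.exp (-(|t| / B)) * ‖zf k G a y r t‖ ^ 4) ≤
        ENNReal.ofReal ((w k A y) ^ 4) * D) :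
    ∫⁻ v, gg k G a A v y ^ 4 ∂((volume.restrict (Ioo A (2 * A))).prod
      (volume.restrict (Ioo (-B) B))) ≤ ENNReal.ofReal (Real.exp 3) * D := by
  have hA0 : 0 < A := by linarith
  have hB0 : 0 < B := by linarith
  have w1 := w_pos k hA0 hy
  have hm1 : Measurable fun v : ℝ × ℝ => ENNReal.ofReal (ka q A v.1 *
        Real.exp (-(|v.2| / B)) * ‖zf k G a y v.1 v.2‖ ^ 4) := by
    have h1 : Measurable fun v : ℝ × ℝ => ‖zf k G a y v.1 v.2‖ :=
      ((zf_meas k G hG a).comp (measurable_id.prodMk measurable_const)).norm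
    have h2 : Measurable fun v : ℝ × ℝ => ka q A v.1 := (ka_cont q A).measurable.comp measurable_fst
    have h3 : Measurable fun v : ℝ × ℝ => Real.exp (-(|v.2| / B)) := by fun_prop
    exact ((h2.mul h3).mul (h1.pow_const 4)).ennreal_ofReal
  calc ∫⁻ v, gg k G a A v y ^ 4 ∂((volume.restrict (Ioo A (2 * A))).prod
      (volume.restrict (Ioo (-B) B)))
      ≤ ∫⁻ v, ENNReal.ofReal (Real.exp 3 * ((w k A y)⁻¹) ^ 4) *
        ENNReal.ofReal (ka q A v.1 * Real.exp (-(|v.2| / B)) * ‖zf k G a y v.1 v.2‖ ^ 4)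
        ∂((volume.restrict (Ioo A (2 * A))).prod (volume.restrict (Ioo (-B) B))) := by
        apply lintegral_mono_ae
        rw [Measure.prod_restrict]
        filter_upwards [ae_restrict_mem (measurableSet_Ioo.prod measurableSet_Ioo)] with v hv
        have k1 := ka_low q hA0 hv.1.1 hv.1.2
        have hv2 : |v.2| / B ≤ 1 := by
          rw [div_le_one hB0]
          exact (abs_lt.2 ⟨hv.2.1, hv.2.2⟩).le
        have k2 : Real.exp (-1) ≤ Real.exp (-(|v.2| / B)) := Real.exp_le_exp.2 (by linarith)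
        unfold gg
        rw [← ENNReal.ofReal_pow (by positivity), ← ENNReal.ofReal_mul (by positivity)]
        apply ENNReal.ofReal_le_ofReal
        have k1' : 0 ≤ ka q A v.1 := (Real.exp_pos _).le.trans k1
        have k3 : 1 ≤ Real.exp 3 * (ka q A v.1 * Real.exp (-(|v.2| / B))) := by
          calc (1 : ℝ) = Real.exp 3 * (Real.exp (-2) * Real.exp (-1)) := by
                rw [← Real.exp_add, ← Real.exp_add]; norm_num
            _ ≤ _ := by gcongr
        rw [mul_pow]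
        calc ‖zf k G a y v.1 v.2‖ ^ 4 * (w k A y)⁻¹ ^ 4
            = 1 * (‖zf k G a y v.1 v.2‖ ^ 4 * (w k A y)⁻¹ ^ 4) := by ring
          _ ≤ (Real.exp 3 * (ka q A v.1 * Real.exp (-(|v.2| / B)))) *
              (‖zf k G a y v.1 v.2‖ ^ 4 * (w k A y)⁻¹ ^ 4) := by gcongr
          _ = _ := by ring
    _ = ENNReal.ofReal (Real.exp 3 * ((w k A y)⁻¹) ^ 4) *
        ∫⁻ r in Ioo A (2 * A), ∫⁻ t in Ioo (-B) B, ENNReal.ofReal (ka q A r *
        Real.exp (-(|t| / B)) * ‖zf k G a y r t‖ ^ 4) := by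
        rw [lintegral_const_mul' _ _ ENNReal.ofReal_ne_top, lintegral_prod _ hm1.aemeasurable]
    _ ≤ ENNReal.ofReal (Real.exp 3 * ((w k A y)⁻¹) ^ 4) *
        ∫⁻ r in Ioi (0 : ℝ), ∫⁻ t : ℝ, ENNReal.ofReal (ka q A r *
        Real.exp (-(|t| / B)) * ‖zf k G a y r t‖ ^ 4) := by
        apply mul_le_mul_right
        refine (lintegral_mono fun r => setLIntegral_le_lintegral _ _).trans
          (lintegral_mono_set ?_)
        intro x hx; exact lt_trans hA0 hx.1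
    _ ≤ ENNReal.ofReal (Real.exp 3 * ((w k A y)⁻¹) ^ 4) *
        (ENNReal.ofReal ((w k A y) ^ 4) * D) := by
        apply mul_le_mul_right
        exact hker
    _ = _ := by
        rw [← mul_assoc, ← ENNReal.ofReal_mul (by positivity)]
        congr 2
        rw [mul_assoc, ← mul_pow, inv_mul_cancel₀ w1.ne', one_pow, mul_one]

theorem box_gen (k : ℕ) (hk : 2 ≤ k)
    (G : ℝ → ℂ) (hG : Measurable G) (M : ℝ) (hM : ∀ θ, ‖G θ‖ ≤ M) (A B : ℝ) (hA : 1 ≤ A)
    (hB : 1 ≤ B) (D : ℝ≥0∞) (q : ℕ)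
    (hker : ∀ y : ℝ, 0 < y → ∀ e1 : Bool,
      ∫⁻ r in Ioi (0 : ℝ), ∫⁻ t : ℝ, ENNReal.ofReal (ka q A r *
        Real.exp (-(|t| / B)) * ‖zf k G (sg' e1) y r t‖ ^ 4) ≤
        ENNReal.ofReal ((w k A y) ^ 4) * D) :
    ∫⁻ v, ENNReal.ofReal (‖Fz k G v.1 v.2‖ ^ 4) ∂((volume.restrict (Ioo A (2 * A))).prod
      (volume.restrict (Ioo (-B) B))) ≤
      (2 ^ 4 * 2 * ENNReal.ofReal (Real.exp 3)) * (∫⁻ y in Ioi (0 : ℝ), WW k A y) ^ 4 * D := by
  have hA0 : 0 < A := by linarith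
  have hB0 : 0 < B := by linarith
  set ρ : Measure (ℝ × ℝ) := (volume.restrict (Ioo A (2 * A))).prod
      (volume.restrict (Ioo (-B) B)) with hρ
  set qd : Measure ℝ := volume.restrict (Ioi (0 : ℝ)) with hqd
  set ν : Measure ℝ := qd.withDensity (WW k A) with hν
  have hνu : ν univ = ∫⁻ p, WW k A p ∂qd := by
    rw [hν, withDensity_apply _ MeasurableSet.univ, Measure.restrict_univ]
  have hWfin : ∀ p, WW k A p ≠ ⊤ := fun p => by
    unfold WW; exact ENNReal.ofReal_ne_top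
  have hsn : SFinite ν := by
    rw [hν]
    infer_instance
  have hquad : ∀ᵐ p ∂qd, 0 < p := by
    rw [hqd]
    filter_upwards [ae_restrict_mem measurableSet_Ioi] with p hp
    exact hp
  have hquadν : ∀ᵐ p ∂ν, 0 < p :=
    (withDensity_absolutelyContinuous qd (WW k A)).ae_le hquad
  have hbox : ∀ᵐ v ∂ρ, (A < v.1 ∧ v.1 < 2 * A) ∧ (-B < v.2 ∧ v.2 < B) := by
    rw [hρ, Measure.prod_restrict]
    filter_upwards [ae_restrict_mem (measurableSet_Ioo.prod measurableSet_Ioo)] with v hv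
    exact hv
  -- pieces
  have hX : ∀ ε : Bool, ∀ v : ℝ × ℝ, ∫⁻ p, ‖sy k p‖ₑ *
      ‖zf k G (sg' ε) p v.1 v.2‖ₑ ∂qd =
      ∫⁻ p, gg k G (sg' ε) A v p ∂ν := by
    intro ε v
    rw [hν, lintegral_withDensity_eq_lintegral_mul _ (WW_meas k A)
      (gg_meas2 k G hG (sg' ε) A v)]
    apply lintegral_congr_ae
    filter_upwards [hquad] with p hp
    have w1 := w_pos k hA0 hp
    simp only [Pi.mul_apply]
    unfold WW gg
    rw [← ofReal_norm, ← ofReal_norm, ← ENNReal.ofReal_mul (by positivity),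
      ← ENNReal.ofReal_mul (by positivity)]
    congr 1
    field_simp
  calc ∫⁻ v, ENNReal.ofReal (‖Fz k G v.1 v.2‖ ^ 4) ∂ρ
      ≤ ∫⁻ v, (∑ ε : Bool, ∫⁻ p, gg k G (sg' ε) A v p ∂ν) ^ 4 ∂ρ := by
        apply lintegral_mono_ae
        filter_upwards [hbox] with v hv
        have h1 := Fz_pieces k hk G hG M hM v.1 v.2 (by linarith [hv.1.1])
        rw [ENNReal.ofReal_pow (norm_nonneg _), ofReal_norm]
        gcongr
        refine h1.trans (le_of_eq ?_)
        apply Finset.sum_congr rfl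
        intro ε _
        exact hX ε v
    _ ≤ ∫⁻ v, 2 ^ 4 * ∑ ε : Bool, (∫⁻ p, gg k G (sg' ε) A v p ∂ν) ^ 4 ∂ρ := by
        apply lintegral_mono
        intro v
        exact sum_pow_le _
    _ ≤ ∫⁻ v, 2 ^ 4 * ∑ ε : Bool,
        ((ν univ) ^ 3 * ∫⁻ p, gg k G (sg' ε) A v p ^ 4 ∂ν) ∂ρ := by
        apply lintegral_mono
        intro v
        apply mul_le_mul_right
        apply Finset.sum_le_sum
        intro ε _
        exact jensen4 ν _ (gg_meas2 k G hG (sg' ε) A v).aemeasurable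
    _ = 2 ^ 4 * ∑ ε : Bool, ((ν univ) ^ 3 *
        ∫⁻ v, ∫⁻ p, gg k G (sg' ε) A v p ^ 4 ∂ν ∂ρ) := by
        have hmm : ∀ ε : Bool, Measurable fun v : ℝ × ℝ =>
            ∫⁻ p, gg k G (sg' ε) A v p ^ 4 ∂ν := fun ε =>
          Measurable.lintegral_prod_right' (f := fun v : (ℝ × ℝ) × ℝ =>
            gg k G (sg' ε) A v.1 v.2 ^ 4)
            ((gg_meas k G hG (sg' ε) A).pow_const 4)
        rw [lintegral_const_mul' _ _ (by simp), lintegral_finsetSum]
        · congr 1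
          apply Finset.sum_congr rfl
          intro ε _
          rw [lintegral_const_mul _ (hmm ε)]
        · intro ε _
          exact (hmm ε).const_mul _
    _ ≤ 2 ^ 4 * ∑ _ε : Bool, ((ν univ) ^ 3 *
        (ENNReal.ofReal (Real.exp 3) * D * ν univ)) := by
        apply mul_le_mul_right
        apply Finset.sum_le_sum
        intro ε _
        apply mul_le_mul_right
        rw [lintegral_lintegral_swap]
        · calc ∫⁻ p, ∫⁻ v, gg k G (sg' ε) A v p ^ 4 ∂ρ ∂ν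
              ≤ ∫⁻ _p, ENNReal.ofReal (Real.exp 3) * D ∂ν := by
                apply lintegral_mono_ae
                filter_upwards [hquadν] with p hp
                exact gg_int k G hG (sg' ε) A B hA hB D q p hp (hker p hp ε)
            _ = _ := by rw [lintegral_const]
        · exact ((gg_meas k G hG (sg' ε) A).pow_const 4).aemeasurable
    _ = _ := by
        rw [hνu, Finset.sum_const, Finset.card_univ]
        simp only [Fintype.card_bool, nsmul_eq_mul]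
        push_cast
        ring

/-- monotone limit in the second variable -/
theorem exhaust (A : ℝ) (f : ℝ × ℝ → ℝ≥0∞) (hf : Measurable f) (D : ℝ≥0∞)
    (h : ∀ B : ℝ, 1 ≤ B → ∫⁻ v, f v ∂((volume.restrict (Ioo A (2 * A))).prod
      (volume.restrict (Ioo (-B) B))) ≤ D) :
    ∫⁻ r in Ioo A (2 * A), ∫⁻ t, f (r, t) ≤ D := by
  have h0 : ∫⁻ r in Ioo A (2 * A), ∫⁻ t, f (r, t) =
      ∫⁻ v, f v ∂((volume.restrict (Ioo A (2 * A))).prod volume) := by
    rw [lintegral_prod _ hf.aemeasurable]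
  rw [h0]
  set S : ℕ → Set (ℝ × ℝ) := fun n => univ ×ˢ Ioo (-((n : ℝ) + 1)) ((n : ℝ) + 1) with hS
  have hU : (⋃ n, S n) = univ := by
    ext v
    simp only [hS, mem_iUnion, mem_prod, mem_univ, true_and, iff_true]
    obtain ⟨n, hn⟩ := exists_nat_gt |v.2|
    refine ⟨n, ?_⟩
    rw [mem_Ioo, ← abs_lt]
    linarith
  have hmono : Monotone S := by
    intro m n hmn
    apply prod_mono_right
    have : (m : ℝ) ≤ n := by exact_mod_cast hmn
    exact Ioo_subset_Ioo (by linarith) (by linarith)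
  have h1 := setLIntegral_iUnion_of_directed (μ := (volume.restrict (Ioo A (2 * A))).prod
    (volume : Measure ℝ)) f (s := S) (hmono.directed_le)
  rw [hU, Measure.restrict_univ] at h1
  rw [h1]
  apply iSup_le
  intro n
  refine le_trans (le_of_eq ?_) (h ((n : ℝ) + 1) (by
    have : (0 : ℝ) ≤ n := Nat.cast_nonneg n
    linarith))
  rw [hS]
  congr 1
  rw [← Measure.prod_restrict, Measure.restrict_univ]

end Z4

/-- Z4 -/
theorem zbox4 (k : ℕ) (hk : 2 ≤ k) : ∃ C : ℝ, 0 < C ∧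
    ∀ (G : ℝ → ℂ) (M : ℝ), Measurable G → (∀ θ, ‖G θ‖ ≤ M) → ∀ A : ℝ, 1 ≤ A →
    ∫⁻ r in Ioo A (2 * A), ∫⁻ t, ENNReal.ofReal (‖Fz k G r t‖ ^ 4) ≤
      ENNReal.ofReal (C * M ^ 4 * (A ^ (-(2 * ((k : ℝ) - 1))) * (1 + Real.log A))) := by
  obtain ⟨C1, hC1, h1⟩ := sy_int k hk
  obtain ⟨C2, hC2, h2⟩ := Q4z
  refine ⟨(2 ^ 4 * 2 * Real.exp 3) * C1 ^ 4 * (2 * ((4 * k + 1).factorial : ℝ)) * C2,
    by positivity, ?_⟩
  intro G M hG hM A hA
  have hA0 : 0 < A := by linarith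
  have hM0 : 0 ≤ M := (norm_nonneg _).trans (hM 0)
  have hl : 0 ≤ Real.log A := Real.log_nonneg hA
  have ea : (A ^ (-(((k : ℝ) - 1) / 2))) ^ 4 = A ^ (-(2 * ((k : ℝ) - 1))) := by
    rw [← Real.rpow_natCast, ← Real.rpow_mul hA0.le]
    congr 1
    push_cast
    ring
  refine Z4.exhaust A (fun v => ENNReal.ofReal (‖Fz k G v.1 v.2‖ ^ 4))
    (((Z4.Fz_meas' k G hG).norm.pow_const 4).ennreal_ofReal) _ ?_
  intro B hB
  have hB0 : 0 < B := by linarith
  have h3 := Z4.box_gen k hk G hG M hM A B hA hB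
    (ENNReal.ofReal (2 * ((4 * k + 1).factorial : ℝ) * M ^ 4) * ∫⁻ x in Q, ∫⁻ x' in Q,
        ∫⁻ v in Q, ∫⁻ v' in Q,
        ENNReal.ofReal (K A (Real.cos x + Real.cos x' - Real.cos v - Real.cos v') *
          K B (Real.sin x + Real.sin x' - Real.sin v - Real.sin v')))
    (4 * k + 1) (by
      intro y hy e1
      refine (Z4.ker4 k G hG M hM A B hA0 hB0 y _ hy (sg_sq e1)).trans
        (le_of_eq ?_)
      conv_rhs => rw [← mul_assoc, ← ENNReal.ofReal_mul (by positivity)]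
      congr 2
      ring)
  refine h3.trans ?_
  have e2 : ((2 : ℝ≥0∞) ^ 4 * 2 * ENNReal.ofReal (Real.exp 3)) =
      ENNReal.ofReal (2 ^ 4 * 2 * Real.exp 3) := by
    rw [ENNReal.ofReal_mul (by positivity), ENNReal.ofReal_mul (by positivity),
      ENNReal.ofReal_pow (by norm_num)]
    norm_num
  rw [e2]
  calc _ ≤ ENNReal.ofReal (2 ^ 4 * 2 * Real.exp 3) *
        (ENNReal.ofReal (C1 * A ^ (-(((k : ℝ) - 1) / 2)))) ^ 4 *
        (ENNReal.ofReal (2 * ((4 * k + 1).factorial : ℝ) * M ^ 4) *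
          ENNReal.ofReal (C2 * (1 + Real.log A))) := by
        gcongr
        · exact h1 A hA
        · exact h2 A B hA hB
    _ = _ := by
        rw [← ENNReal.ofReal_pow (by positivity), ← ENNReal.ofReal_mul (by positivity),
          ← ENNReal.ofReal_mul (by positivity), ← ENNReal.ofReal_mul (by positivity)]
        congr 1
        rw [← ea]
        ring

end Pool.Agent.H438R2.ZD
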