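import Mathlib
import Pool.Agent.H438R2.ZD.Defs
import Pool.Agent.H438R2.BR.T8
import Pool.Agent.H438R2.ZD.Z4
import Pool.Agent.H438R2.ZD.Z1
set_option autoImplicit false

/-! # Z5: the planar bound for zonal densities (helper594) -/

namespace Pool.Agent.H438R2.ZD

open MeasureTheory Set Complex
open scoped ENNReal
open Pool.Agent.H438R2.BR

theorem Fz_meas (k : ℕ) (G : ℝ → ℂ) (hG : Measurable G) :
    Measurable fun q : ℝ × ℝ => Fz k G q.1 q.2 := Z4.Fz_meas' k G hG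

namespace Z5

theorem Fz_le (k : ℕ) (hk : 2 ≤ k) (G : ℝ → ℂ) (M : ℝ) (hM : ∀ θ, ‖G θ‖ ≤ M)
    (r t : ℝ) : ‖Fz k G r t‖ ≤ M * Real.pi ^ 2 := by
  have hM0 : 0 ≤ M := (norm_nonneg _).trans (hM 0)
  unfold Fz
  have h1 : ∀ θ ∈ Q, ‖G θ * (((Real.cos θ) ^ (k - 1) : ℝ) : ℂ) *
      (Phi k (r * Real.cos θ) * Complex.exp (-((t * Real.sin θ : ℝ) : ℂ) * I))‖ ≤
      M * Real.pi := by
    intro θ hθ
    have n2 : ‖Complex.exp (-((t * Real.sin θ : ℝ) : ℂ) * I)‖ = 1 := by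
      rw [Complex.norm_exp]
      simp
    rw [norm_mul, norm_mul, norm_mul, n2, mul_one, Complex.norm_real, Real.norm_eq_abs, abs_pow]
    have a1 : |Real.cos θ| ^ (k - 1) ≤ 1 := pow_le_one₀ (abs_nonneg _) (Real.abs_cos_le_one θ)
    have a4 := Phi_le k hk (r * Real.cos θ)
    calc ‖G θ‖ * |Real.cos θ| ^ (k - 1) * ‖Phi k (r * Real.cos θ)‖
        ≤ M * 1 * Real.pi := by
          apply mul_le_mul
          · exact mul_le_mul (hM θ) a1 (by positivity) hM0
          · exact a4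
          · positivity
          · positivity
      _ = M * Real.pi := by ring
  have h2 := norm_setIntegral_le_of_norm_le_const (μ := volume) (s := Q) (C := M * Real.pi)
    (by unfold Q; simp) h1
  refine h2.trans ?_
  have h3 : (volume : Measure ℝ).real Q ≤ Real.pi := by
    unfold Q
    rw [Real.volume_real_Ioo, sub_zero, max_eq_left (by linarith [Real.pi_pos])]
    linarith [Real.pi_pos]
  calc M * Real.pi * (volume : Measure ℝ).real Q ≤ M * Real.pi * Real.pi := by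
        apply mul_le_mul_of_nonneg_left h3
        have := Real.pi_pos
        positivity
    _ = _ := by ring

theorem expo (k τ : ℝ) (h1 : 1 < k * τ) : ∃ δ C : ℝ, 0 < δ ∧ 0 < C ∧
    ∀ A : ℝ, 1 ≤ A → A ^ (-((k - 1) * τ)) * A ^ (1 - τ) * (1 + Real.log A) ≤ C * A ^ (-δ) := by
  set δ : ℝ := (k * τ - 1) / 2 with hδ
  have hδ0 : 0 < δ := by rw [hδ]; linarith
  refine ⟨δ, 1 + 1 / δ, hδ0, by positivity, ?_⟩
  intro A hA
  have hA0 : 0 < A := by linarith
  have hlog : 1 + Real.log A ≤ (1 + 1 / δ) * A ^ δ := by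
    have h2 := Real.log_le_rpow_div hA0.le hδ0
    have h3 : (1 : ℝ) ≤ A ^ δ := Real.one_le_rpow hA hδ0.le
    have h4 : A ^ δ / δ = 1 / δ * A ^ δ := by ring
    rw [h4] at h2
    linarith
  have e1 : A ^ (-((k - 1) * τ)) * A ^ (1 - τ) = A ^ (-(2 * δ)) := by
    rw [← Real.rpow_add hA0]
    congr 1
    rw [hδ]
    ring
  rw [e1]
  calc A ^ (-(2 * δ)) * (1 + Real.log A) ≤ A ^ (-(2 * δ)) * ((1 + 1 / δ) * A ^ δ) := by
        apply mul_le_mul_of_nonneg_left hlog (Real.rpow_nonneg hA0.le _)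
    _ = (1 + 1 / δ) * (A ^ (-(2 * δ)) * A ^ δ) := by ring
    _ = _ := by
        rw [← Real.rpow_add hA0]
        congr 2
        ring

theorem boxp (k : ℕ) (hk : 2 ≤ k) (p : ℝ)
    (hp : 2 * ((k : ℝ) + 1) / k < p) (hp4 : p < 4) :
    ∃ δ C : ℝ, 0 < δ ∧ 0 < C ∧ ∀ (G : ℝ → ℂ) (M : ℝ), Measurable G → (∀ θ, ‖G θ‖ ≤ M) →
    ∀ A : ℝ, 1 ≤ A →
    ∫⁻ r in Ioo A (2 * A), ∫⁻ t, ENNReal.ofReal (‖Fz k G r t‖ ^ p * r ^ (k - 1)) ≤
      ENNReal.ofReal (C * M ^ p * A ^ (-δ)) := by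
  have hkr : (2 : ℝ) ≤ k := by exact_mod_cast hk
  have hN : (0 : ℝ) < (k : ℝ) := by linarith
  rw [div_lt_iff₀ hN] at hp
  have hp2 : 2 < p := by nlinarith
  set τ : ℝ := (p - 2) / 2 with hτ
  have h0 : 0 < τ := by rw [hτ]; linarith
  have hτ1 : τ < 1 := by rw [hτ]; linarith
  have h1 : 1 < (k : ℝ) * τ := by rw [hτ]; nlinarith
  obtain ⟨δ, C0, hδ, hC0, hexp⟩ := expo k τ h1
  obtain ⟨C2, hC2, h2⟩ := zl2 k hk
  obtain ⟨C4, hC4, h4⟩ := zbox4 k hk
  refine ⟨δ, 2 ^ (k - 1) * (C2 ^ (1 - τ) * C4 ^ τ * C0), hδ, by positivity, ?_⟩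
  intro G M hG hM A hA
  have hM0 : 0 ≤ M := (norm_nonneg _).trans (hM 0)
  have hA0 : 0 < A := by linarith
  have hFm := Fz_meas k G hG
  set μ : Measure (ℝ × ℝ) := (volume.restrict (Ioo A (2 * A))).prod volume with hμ
  set f : ℝ × ℝ → ℝ := fun x => ‖Fz k G x.1 x.2‖ with hf
  have hfm : Measurable f := hFm.norm
  have hf0 : ∀ x, 0 ≤ f x := fun x => norm_nonneg _
  have hl := Real.log_nonneg hA
  have hLg : 0 < 1 + Real.log A := by linarith
  set X : ℝ := C2 * M ^ 2 * (A ^ (-((k : ℝ) - 1)) * 1 ^ (-(0 : ℝ)) * (A * (1 + Real.log A))) with hX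
  set Y : ℝ := C4 * M ^ 4 * (A ^ (-(2 * ((k : ℝ) - 1))) * 1 ^ (-(2 * (0 : ℝ))) *
        (1 + Real.log A)) with hY
  have hX0 : 0 ≤ X := by positivity
  have hY0 : 0 ≤ Y := by positivity
  have g2 : ∫⁻ x, ENNReal.ofReal (f x ^ 2) ∂μ ≤ ENNReal.ofReal X := by
    rw [hμ, lintegral_prod _ (hfm.pow_const 2).ennreal_ofReal.aemeasurable]
    calc ∫⁻ r in Ioo A (2 * A), ∫⁻ t, ENNReal.ofReal (f (r, t) ^ 2)
        ≤ ∫⁻ _r in Ioo A (2 * A), ENNReal.ofReal (C2 * M ^ 2 * A ^ (-((k : ℝ) - 1))) := by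
          apply setLIntegral_mono' measurableSet_Ioo
          intro r hr
          have hr0 : 0 < r := hA0.trans hr.1
          refine (h2 G M hG hM r hr0).trans ?_
          apply ENNReal.ofReal_le_ofReal
          apply mul_le_mul_of_nonneg_left _ (by positivity)
          refine (min_le_right _ _).trans ?_
          apply Real.rpow_le_rpow_of_nonpos hA0 hr.1.le
          linarith
      _ = ENNReal.ofReal (C2 * M ^ 2 * A ^ (-((k : ℝ) - 1))) * ENNReal.ofReal A := by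
          rw [setLIntegral_const, Real.volume_Ioo]
          congr 2
          ring
      _ ≤ ENNReal.ofReal X := by
          rw [← ENNReal.ofReal_mul (by positivity)]
          apply ENNReal.ofReal_le_ofReal
          rw [hX, Real.one_rpow, mul_one, mul_assoc (C2 * M ^ 2)]
          apply mul_le_mul_of_nonneg_left _ (by positivity)
          apply mul_le_mul_of_nonneg_left _ (Real.rpow_nonneg hA0.le _)
          nlinarith
  have g4 : ∫⁻ x, ENNReal.ofReal (f x ^ 4) ∂μ ≤ ENNReal.ofReal Y := by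
    rw [hμ, lintegral_prod _ (hfm.pow_const 4).ennreal_ofReal.aemeasurable]
    refine (h4 G M hG hM A hA).trans (le_of_eq ?_)
    rw [hY, Real.one_rpow, mul_one]
  have g := Pool.Agent.H789R2.FR.InterpAux.gen_24 μ p hp2 hp4 f hfm hf0 X Y hX0 hY0 g2 g4
  rw [hμ, lintegral_prod _ (hfm.pow_const p).ennreal_ofReal.aemeasurable] at g
  have e14 : (4 - p) / 2 = 1 - τ := by rw [hτ]; ring
  rw [e14] at g
  change _ ≤ ENNReal.ofReal (X ^ (1 - τ) * Y ^ τ) at g
  -- the weights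
  set W : ℝ := (2 * A) ^ (k - 1) with hW
  have hW0 : 0 ≤ W := by positivity
  have step : ∫⁻ r in Ioo A (2 * A), ∫⁻ t, ENNReal.ofReal (‖Fz k G r t‖ ^ p * r ^ (k - 1)) ≤
      ENNReal.ofReal W * ∫⁻ r in Ioo A (2 * A), ∫⁻ t, ENNReal.ofReal (f (r, t) ^ p) := by
    have hm1 : Measurable fun r : ℝ => ∫⁻ t, ENNReal.ofReal (f (r, t) ^ p) :=
      Measurable.lintegral_prod_right (hfm.pow_const p).ennreal_ofReal
    rw [← lintegral_const_mul _ hm1]
    apply setLIntegral_mono' measurableSet_Ioo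
    intro r hr
    have hm2 : Measurable fun t : ℝ => ENNReal.ofReal (f (r, t) ^ p) :=
      ((hfm.comp (measurable_const.prodMk measurable_id)).pow_const p).ennreal_ofReal
    rw [← lintegral_const_mul _ hm2]
    apply lintegral_mono
    intro t
    simp only
    rw [← ENNReal.ofReal_mul hW0]
    apply ENNReal.ofReal_le_ofReal
    have hr0 : 0 ≤ r := by linarith [hr.1]
    have hw : r ^ (k - 1) ≤ W := pow_le_pow_left₀ hr0 hr.2.le _
    have hfe : ‖Fz k G r t‖ = f (r, t) := rfl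
    rw [hfe, mul_comm W]
    exact mul_le_mul_of_nonneg_left hw (Real.rpow_nonneg (hf0 (r, t)) p)
  refine step.trans ((mul_le_mul' le_rfl g).trans ?_)
  rw [← ENNReal.ofReal_mul hW0]
  apply ENNReal.ofReal_le_ofReal
  have hA1 : A ^ (k - 1) = A ^ ((k : ℝ) - 1) := by
    rw [← Real.rpow_natCast]; congr 1; push_cast [Nat.cast_sub (by omega : 1 ≤ k)]; ring
  have hid := xy_ident ((k : ℝ) - 1) 0 τ A 1 A (1 + Real.log A) C2 C4 M
    hA0 one_pos hA0 hLg hC2 hC4 hM0 h0 hτ1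
  rw [← hX, ← hY] at hid
  have hpM : M ^ (2 + 2 * τ) = M ^ p := by congr 1; rw [hτ]; ring
  rw [hpM, Real.one_rpow, Real.one_rpow, mul_one, mul_one] at hid
  calc W * (X ^ (1 - τ) * Y ^ τ)
      = 2 ^ (k - 1) * (A ^ ((k : ℝ) - 1) * (X ^ (1 - τ) * Y ^ τ)) := by
        rw [hW, mul_pow, hA1]; ring
    _ = 2 ^ (k - 1) * (C2 ^ (1 - τ) * C4 ^ τ * M ^ p *
          (A ^ (-(((k : ℝ) - 1) * τ)) * A ^ (1 - τ) * (1 + Real.log A))) := by rw [hid]
    _ ≤ 2 ^ (k - 1) * (C2 ^ (1 - τ) * C4 ^ τ * M ^ p * (C0 * A ^ (-δ))) := by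
        apply mul_le_mul_of_nonneg_left _ (by positivity)
        exact mul_le_mul_of_nonneg_left (hexp A hA) (by positivity)
    _ = _ := by ring

/-- summation over dyadic intervals -/
theorem sum_boxes (δ : ℝ) (hδ : 0 < δ) : ∃ S : ℝ, 0 < S ∧ ∀ (H : ℝ → ℝ≥0∞),
    ∀ C : ℝ, 0 ≤ C → (∀ A : ℝ, 1 ≤ A →
      ∫⁻ r in Ioo A (2 * A), H r ≤ ENNReal.ofReal (C * A ^ (-δ))) →
    ∫⁻ r in Ioi (1 : ℝ), H r ≤ ENNReal.ofReal (C * S) := by
  set q : ℝ := (2 : ℝ) ^ (-δ) with hq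
  have hq0 : 0 < q := Real.rpow_pos_of_pos (by norm_num) _
  have hq1 : q < 1 := Real.rpow_lt_one_of_one_lt_of_neg (by norm_num) (by linarith)
  have h1q : 0 < 1 - q := by linarith
  refine ⟨(1 - q)⁻¹, by positivity, ?_⟩
  intro H C hC hbox
  have hpow : ∀ i : ℕ, ((2 : ℝ) ^ i) ^ (-δ) = q ^ i := by
    intro i
    rw [hq, ← Real.rpow_natCast, ← Real.rpow_natCast, ← Real.rpow_mul (by norm_num),
      ← Real.rpow_mul (by norm_num)]
    congr 1; ring
  have hone : ∀ i : ℕ, (1 : ℝ) ≤ 2 ^ i := fun i => one_le_pow₀ (by norm_num)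
  have hgeo : ∑' i : ℕ, ENNReal.ofReal (q ^ i) = ENNReal.ofReal ((1 - q)⁻¹) := by
    rw [← ENNReal.ofReal_tsum_of_nonneg (fun i => by positivity)
      (summable_geometric_of_lt_one hq0.le hq1), tsum_geometric_of_lt_one hq0.le hq1]
  calc ∫⁻ r in Ioi (1 : ℝ), H r
      ≤ ∑' i : ℕ, ∫⁻ r in Ioo ((2 : ℝ) ^ i) (2 * 2 ^ i), H r := cover_one _
    _ ≤ ∑' i : ℕ, ENNReal.ofReal C * ENNReal.ofReal (q ^ i) := by
        apply ENNReal.tsum_le_tsum
        intro i
        refine (hbox _ (hone i)).trans (le_of_eq ?_)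
        rw [hpow, ENNReal.ofReal_mul hC]
    _ = ENNReal.ofReal C * ENNReal.ofReal ((1 - q)⁻¹) := by
        rw [ENNReal.tsum_mul_left, hgeo]
    _ = _ := by
        rw [ENNReal.ofReal_mul hC]

end Z5

/-- Z5 -/
theorem zplanar (k : ℕ) (hk : 2 ≤ k) (p : ℝ) (hp : 2 * ((k : ℝ) + 1) / k < p) (hp4 : p < 4) :
    ∃ C : ℝ, 0 < C ∧ ∀ (G : ℝ → ℂ) (M : ℝ), Measurable G → (∀ θ, ‖G θ‖ ≤ M) →
    ∫⁻ r in Ioi (0 : ℝ), ∫⁻ t, ENNReal.ofReal (‖Fz k G r t‖ ^ p * r ^ (k - 1)) ≤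
      ENNReal.ofReal (C * M ^ p) := by
  have hkr : (2 : ℝ) ≤ k := by exact_mod_cast hk
  have hN : (0 : ℝ) < (k : ℝ) := by linarith
  have hp2 : 2 < p := by
    have := (div_lt_iff₀ hN).1 hp
    nlinarith
  obtain ⟨δ, C0, hδ, hC0, hbox⟩ := Z5.boxp k hk p hp hp4
  obtain ⟨S, hS, hsum⟩ := Z5.sum_boxes δ hδ
  obtain ⟨C1, hC1, hs⟩ := zl2 k hk
  have hpi := Real.pi_pos
  refine ⟨(Real.pi ^ 2) ^ (p - 2) * C1 + C0 * S, by positivity, ?_⟩
  intro G M hG hM
  have hM0 : 0 ≤ M := (norm_nonneg _).trans (hM 0)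
  have hMp : 0 ≤ M ^ p := Real.rpow_nonneg hM0 _
  have r3 : ∫⁻ r in Ioi (1 : ℝ), ∫⁻ t, ENNReal.ofReal (‖Fz k G r t‖ ^ p * r ^ (k - 1)) ≤
      ENNReal.ofReal (C0 * M ^ p * S) := by
    apply hsum _ (C0 * M ^ p) (by positivity)
    intro A hA
    exact hbox G M hG hM A hA
  have r1 : ∫⁻ r in Ioo (0 : ℝ) 1, ∫⁻ t, ENNReal.ofReal (‖Fz k G r t‖ ^ p * r ^ (k - 1)) ≤
      ENNReal.ofReal ((Real.pi ^ 2) ^ (p - 2) * C1 * M ^ p) := by
    calc ∫⁻ r in Ioo (0 : ℝ) 1, ∫⁻ t, ENNReal.ofReal (‖Fz k G r t‖ ^ p * r ^ (k - 1))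
        ≤ ∫⁻ _r in Ioo (0 : ℝ) 1, ENNReal.ofReal ((Real.pi ^ 2) ^ (p - 2) * C1 * M ^ p) := by
          apply setLIntegral_mono' measurableSet_Ioo
          intro r hr
          have hr0 : 0 < r := hr.1
          have hr1 : r ^ (k - 1) ≤ 1 := pow_le_one₀ hr0.le hr.2.le
          calc ∫⁻ t, ENNReal.ofReal (‖Fz k G r t‖ ^ p * r ^ (k - 1))
              ≤ ∫⁻ t, ENNReal.ofReal ((M * Real.pi ^ 2) ^ (p - 2)) *
                ENNReal.ofReal (‖Fz k G r t‖ ^ 2) := by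
                apply lintegral_mono
                intro t
                simp only
                rw [← ENNReal.ofReal_mul (by positivity)]
                apply ENNReal.ofReal_le_ofReal
                have hn := norm_nonneg (Fz k G r t)
                have e1 : ‖Fz k G r t‖ ^ p = ‖Fz k G r t‖ ^ (p - 2) * ‖Fz k G r t‖ ^ 2 := by
                  rw [← Real.rpow_natCast (‖Fz k G r t‖) 2,
                    ← Real.rpow_add_of_nonneg hn (by linarith) (by norm_num)]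
                  congr 1
                  push_cast
                  ring
                have e2 : ‖Fz k G r t‖ ^ (p - 2) ≤ (M * Real.pi ^ 2) ^ (p - 2) :=
                  Real.rpow_le_rpow hn (Z5.Fz_le k hk G M hM r t) (by linarith)
                calc ‖Fz k G r t‖ ^ p * r ^ (k - 1) ≤ ‖Fz k G r t‖ ^ p * 1 :=
                      mul_le_mul_of_nonneg_left hr1 (Real.rpow_nonneg hn _)
                  _ = ‖Fz k G r t‖ ^ (p - 2) * ‖Fz k G r t‖ ^ 2 := by rw [mul_one, e1]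
                  _ ≤ _ := mul_le_mul_of_nonneg_right e2 (by positivity)
            _ = ENNReal.ofReal ((M * Real.pi ^ 2) ^ (p - 2)) *
                ∫⁻ t, ENNReal.ofReal (‖Fz k G r t‖ ^ 2) :=
                lintegral_const_mul' _ _ ENNReal.ofReal_ne_top
            _ ≤ ENNReal.ofReal ((M * Real.pi ^ 2) ^ (p - 2)) *
                ENNReal.ofReal (C1 * M ^ 2 * min 1 (r ^ (-((k : ℝ) - 1)))) := by
                apply mul_le_mul_right
                exact hs G M hG hM r hr0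
            _ ≤ _ := by
                rw [← ENNReal.ofReal_mul (by positivity)]
                apply ENNReal.ofReal_le_ofReal
                have e3 : M ^ p = M ^ (p - 2) * M ^ 2 := by
                  rw [← Real.rpow_natCast M 2,
                    ← Real.rpow_add_of_nonneg hM0 (by linarith) (by norm_num)]
                  congr 1
                  push_cast
                  ring
                rw [Real.mul_rpow hM0 (by positivity), e3]
                calc M ^ (p - 2) * (Real.pi ^ 2) ^ (p - 2) *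
                      (C1 * M ^ 2 * min 1 (r ^ (-((k : ℝ) - 1))))
                    ≤ M ^ (p - 2) * (Real.pi ^ 2) ^ (p - 2) * (C1 * M ^ 2 * 1) := by
                      apply mul_le_mul_of_nonneg_left _ (by positivity)
                      apply mul_le_mul_of_nonneg_left (min_le_left _ _) (by positivity)
                  _ = _ := by ring
      _ = _ := by
          rw [setLIntegral_const, Real.volume_Ioo]
          simp
  have hsplit : ∀ g : ℝ → ℝ≥0∞, ∫⁻ r in Ioi (0 : ℝ), g r ≤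
      (∫⁻ r in Ioo (0 : ℝ) 1, g r) + ∫⁻ r in Ioi (1 : ℝ), g r := by
    intro g
    have h5 : Ioi (0 : ℝ) = Ioc 0 1 ∪ Ioi 1 := (Ioc_union_Ioi_eq_Ioi zero_le_one).symm
    rw [h5]
    refine (lintegral_union_le _ _ _).trans (le_of_eq ?_)
    rw [setLIntegral_congr Ioo_ae_eq_Ioc]
  refine (hsplit _).trans ((add_le_add r1 r3).trans (le_of_eq ?_))
  rw [← ENNReal.ofReal_add (by positivity) (by positivity)]
  congr 1
  ring

end Pool.Agent.H438R2.ZD
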