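import Mathlib
import Pool.Agent.H438R2.ZD.Defs
set_option autoImplicit false

namespace Pool.Agent.H438R2.ZD

open MeasureTheory Set Complex
open scoped ENNReal RealInnerProductSpace
open Pool.Agent.H789R2.FR (E sg)
open Pool.Agent.H438R2.BR (Phi Q K ka J)

/-! ## Z0: decay of the Bessel integral -/
theorem Phi_decay (k : ℕ) (hk : 2 ≤ k) : ∃ C : ℝ, 0 < C ∧ ∀ u : ℝ, 0 < u →
    ‖Phi k u‖ ≤ C * min 1 (u ^ (-(((k : ℝ) - 1) / 2))) := sorry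

/-! ## Z1: L2 bound in the axis variable -/
theorem zl2 (k : ℕ) (hk : 2 ≤ k) : ∃ C : ℝ, 0 < C ∧ ∀ (G : ℝ → ℂ) (M : ℝ), Measurable G →
    (∀ θ, ‖G θ‖ ≤ M) → ∀ r : ℝ, 0 < r →
    ∫⁻ t, ENNReal.ofReal (‖Fz k G r t‖ ^ 2) ≤
      ENNReal.ofReal (C * M ^ 2 * min 1 (r ^ (-((k : ℝ) - 1)))) := sorry

/-! ## Z2: kernel lemma -/
theorem zker {X : Type*} [MeasurableSpace X] (μ : Measure X) [IsFiniteMeasure μ]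
    (h z1 : X → ℂ) (s : X → ℝ) (hh : Measurable h) (hz1 : Measurable z1) (hs : Measurable s)
    (M : ℝ) (hM : ∀ x, ‖h x‖ ≤ M) (h1 : ∀ x, 0 ≤ (z1 x).re)
    (q : ℕ) (A B : ℝ) (hA : 0 < A) (hB : 0 < B) :
    ∫⁻ r in Ioi (0 : ℝ), ∫⁻ t : ℝ, ENNReal.ofReal (ka q A r * Real.exp (-(|t| / B)) *
        ‖∫ x, h x * Complex.exp (-((r : ℂ) * z1 x) - ((t * s x : ℝ) : ℂ) * I) ∂μ‖ ^ 2) ≤
      ENNReal.ofReal (2 * (q.factorial : ℝ)) * ∫⁻ x, ∫⁻ x', ENNReal.ofReal (‖h x‖ * ‖h x'‖ *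
        (A / ‖1 + (A : ℂ) * (z1 x + (starRingEnd ℂ) (z1 x'))‖ ^ (q + 1)) *
        K B (s x - s x')) ∂μ ∂μ := sorry

/-! ## Z3: quadrilinear bound, uniform in B -/
theorem Q4z : ∃ C : ℝ, 0 < C ∧ ∀ A B : ℝ, 1 ≤ A → 1 ≤ B →
    ∫⁻ x in Q, ∫⁻ y in Q, ∫⁻ z in Q, ∫⁻ v in Q,
      ENNReal.ofReal (K A (Real.cos x + Real.cos y - Real.cos z - Real.cos v) *
      K B (Real.sin x + Real.sin y - Real.sin z - Real.sin v)) ≤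
      ENNReal.ofReal (C * (1 + Real.log A)) := sorry

/-! ## Z4: L4 bound -/
theorem zbox4 (k : ℕ) (hk : 2 ≤ k) : ∃ C : ℝ, 0 < C ∧
    ∀ (G : ℝ → ℂ) (M : ℝ), Measurable G → (∀ θ, ‖G θ‖ ≤ M) → ∀ A : ℝ, 1 ≤ A →
    ∫⁻ r in Ioo A (2 * A), ∫⁻ t, ENNReal.ofReal (‖Fz k G r t‖ ^ 4) ≤
      ENNReal.ofReal (C * M ^ 4 * (A ^ (-(2 * ((k : ℝ) - 1))) * (1 + Real.log A))) := sorry

/-! ## Z5: the planar bound -/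
theorem Fz_meas (k : ℕ) (G : ℝ → ℂ) (hG : Measurable G) :
    Measurable fun q : ℝ × ℝ => Fz k G q.1 q.2 := sorry

theorem zplanar (k : ℕ) (hk : 2 ≤ k) (p : ℝ) (hp : 2 * ((k : ℝ) + 1) / k < p) (hp4 : p < 4) :
    ∃ C : ℝ, 0 < C ∧ ∀ (G : ℝ → ℂ) (M : ℝ), Measurable G → (∀ θ, ‖G θ‖ ≤ M) →
    ∫⁻ r in Ioi (0 : ℝ), ∫⁻ t, ENNReal.ofReal (‖Fz k G r t‖ ^ p * r ^ (k - 1)) ≤
      ENNReal.ofReal (C * M ^ p) := sorry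

/-! ## Z6: reduction -/
theorem zreduction (k : ℕ) (hk : 2 ≤ k) (γ : ℝ → ℂ) (hγ : Measurable γ)
    (M : ℝ) (hM : ∀ s, ‖γ s‖ ≤ M) (x : E k) (y : E 1) :
    ∫ z, Complex.exp (-((⟪J x y, z⟫ : ℝ) : ℂ) * I) * γ (z (Fin.natAdd k 0)) ∂(sg (k + 1)) =
      ((sg (k - 1)).real univ : ℂ) *
        (Fz k (fun θ => γ (Real.sin θ)) ‖x‖ (y 0) +
          Fz k (fun θ => γ (-Real.sin θ)) ‖x‖ (-(y 0))) := sorry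

end Pool.Agent.H438R2.ZD
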